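import Pool.Agent.Run7.h43.ES.Fld

/-!
# Representations with the same traces
-/

set_option autoImplicit false
set_option linter.unusedSectionVars false
set_option linter.style.haveILetI false

open TensorProduct Module

namespace Run7.h43.ES

variable {K : Type} [Field K] [CharZero K] {G : Type} [Group G]
variable {V : Type} [AddCommGroup V] [Module K V] [FiniteDimensional K V]

/-- A representation with stable complements is semisimple. -/
theorem semisimple_asModule (ρ : Representation K G V)
    (hss : ∀ U : Submodule K V, (∀ g, ∀ u ∈ U, ρ g u ∈ U) →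
      ∃ U' : Submodule K V, (∀ g, ∀ u ∈ U', ρ g u ∈ U') ∧ IsCompl U U') :
    IsSemisimpleModule (MonoidAlgebra K G) ρ.asModule := by
  refine { exists_isCompl := fun U => ?_ }
  obtain ⟨U', hU', hc⟩ := hss
    { carrier := {v | ρ.asModuleEquiv.symm v ∈ U}
      zero_mem' := by
        change ρ.asModuleEquiv.symm 0 ∈ U
        rw [map_zero]
        exact U.zero_mem
      add_mem' := fun {a b} ha hb => by
        change ρ.asModuleEquiv.symm (a + b) ∈ U
        rw [map_add]
        exact U.add_mem ha hb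
      smul_mem' := fun k v hv => by
        change ρ.asModuleEquiv.symm (k • v) ∈ U
        rw [ρ.asModuleEquiv_symm_map_smul]
        exact U.smul_mem _ hv } (fun g u hu => by
      change ρ.asModuleEquiv.symm (ρ g u) ∈ U
      rw [ρ.asModuleEquiv_symm_map_rho]
      exact U.smul_mem _ hu)
  let V' : Submodule (MonoidAlgebra K G) ρ.asModule :=
    { carrier := {v | ρ.asModuleEquiv v ∈ U'}
      zero_mem' := by
        change ρ.asModuleEquiv 0 ∈ U'
        rw [map_zero]
        exact U'.zero_mem
      add_mem' := fun {a b} ha hb => by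
        change ρ.asModuleEquiv (a + b) ∈ U'
        rw [map_add]
        exact U'.add_mem ha hb
      smul_mem' := fun z v hv => by
        change ρ.asModuleEquiv (z • v) ∈ U'
        rw [ρ.asModuleEquiv_map_smul]
        induction z using MonoidAlgebra.induction_linear with
        | zero =>
          rw [map_zero, LinearMap.zero_apply]
          exact U'.zero_mem
        | add a b ha hb =>
          rw [map_add, LinearMap.add_apply]
          exact U'.add_mem ha hb
        | single g k =>
          rw [ρ.asAlgebraHom_single g k, LinearMap.smul_apply]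
          exact U'.smul_mem _ (hU' g _ hv) }
  refine ⟨V', ?_, ?_⟩
  · rw [disjoint_iff_inf_le]
    intro x hx
    have h1 : ρ.asModuleEquiv x ∈ (⊥ : Submodule K V) := by
      rw [← hc.inf_eq_bot]
      exact ⟨by
        change ρ.asModuleEquiv.symm (ρ.asModuleEquiv x) ∈ U
        rw [LinearEquiv.symm_apply_apply]
        exact hx.1, hx.2⟩
    rw [Submodule.mem_bot, LinearEquiv.map_eq_zero_iff] at h1
    rw [h1]
    exact Submodule.zero_mem _
  · rw [codisjoint_iff_le_sup]
    intro x _
    have h1 : ρ.asModuleEquiv x ∈ (⊤ : Submodule K V) := trivial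
    rw [← hc.sup_eq_top] at h1
    obtain ⟨y, hy, z, hz, h2⟩ := Submodule.mem_sup.1 h1
    refine Submodule.mem_sup.2 ⟨ρ.asModuleEquiv.symm y, hy, ρ.asModuleEquiv.symm z, ?_, ?_⟩
    · change ρ.asModuleEquiv (ρ.asModuleEquiv.symm z) ∈ U'
      rw [LinearEquiv.apply_symm_apply]
      exact hz
    · rw [← map_add, h2, LinearEquiv.symm_apply_apply]


theorem ss_prod {R A B : Type*} [Ring R] [AddCommGroup A] [Module R A] [AddCommGroup B] [Module R B]
    [IsSemisimpleModule R A] [IsSemisimpleModule R B] : IsSemisimpleModule R (A × B) := by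
  have h1 : IsSemisimpleModule R
      ↥(LinearMap.range (LinearMap.inl R A B) ⊔ LinearMap.range (LinearMap.inr R A B)) :=
    .sup (.range _) (.range _)
  rw [LinearMap.sup_range_inl_inr] at h1
  exact .congr Submodule.topEquiv.symm

/-- Equivariant maps give linear maps over the group algebra. -/
theorem equi_of {V' : Type} [AddCommGroup V'] [Module K V'] {ρ : Representation K G V}
    {σ : Representation K G V'} (ψ : ρ.asModule →ₗ[MonoidAlgebra K G] σ.asModule) :
    ∃ j : V →ₗ[K] V', (∀ g v, j (ρ g v) = σ g (j v)) ∧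
      ∀ v, j v = σ.asModuleEquiv (ψ (ρ.asModuleEquiv.symm v)) := by
  refine ⟨{ toFun := fun v => σ.asModuleEquiv (ψ (ρ.asModuleEquiv.symm v))
            map_add' := fun a b => by rw [map_add, map_add, map_add]
            map_smul' := fun k v => ?_ }, fun g v => ?_, fun v => rfl⟩
  · rw [ρ.asModuleEquiv_symm_map_smul, map_smul, σ.asModuleEquiv_map_smul]
    rw [AlgHom.commutes]
    rfl
  · change σ.asModuleEquiv (ψ (ρ.asModuleEquiv.symm (ρ g v))) = σ g _
    rw [ρ.asModuleEquiv_symm_map_rho, map_smul, σ.asModuleEquiv_map_smul,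
      σ.asAlgebraHom_of]
    rfl

/-- The representation on the column vectors. -/
noncomputable def rep2 (r : G →* Matrix (Fin 2) (Fin 2) K) : Representation K G (Fin 2 → K) :=
  (Matrix.toLinAlgEquiv' : Matrix (Fin 2) (Fin 2) K ≃ₐ[K] _).toAlgHom.toRingHom.toMonoidHom.comp r

theorem rep2_apply (r : G →* Matrix (Fin 2) (Fin 2) K) (g : G) (w : Fin 2 → K) :
    rep2 r g w = (r g).mulVec w := Matrix.toLinAlgEquiv'_apply _ _

theorem rep2_trace (r : G →* Matrix (Fin 2) (Fin 2) K) (g : G) :
    LinearMap.trace K _ (rep2 r g) = (r g).trace := Matrix.trace_toLin'_eq _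

/-- **A two-dimensional irreducible summand is detected by the traces.** -/
theorem exists_emb (ρ : Representation K G V)
    (hss : ∀ U : Submodule K V, (∀ g, ∀ u ∈ U, ρ g u ∈ U) →
      ∃ U' : Submodule K V, (∀ g, ∀ u ∈ U', ρ g u ∈ U') ∧ IsCompl U U')
    {T : Type} [Fintype T] [DecidableEq T] (r : T → G →* Matrix (Fin 2) (Fin 2) K)
    (hirr : ∀ τ, ∀ U : Submodule K (Fin 2 → K), (∀ g, ∀ u ∈ U, (r τ g).mulVec u ∈ U) →
      U = ⊥ ∨ U = ⊤) (l : T)
    (hne : ∀ τ, τ ≠ l → ∀ j : (Fin 2 → K) →ₗ[K] (Fin 2 → K),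
      (∀ g w, j ((r l g).mulVec w) = (r τ g).mulVec (j w)) → j = 0)
    (htr : ∀ g, LinearMap.trace K V (ρ g) = ∑ τ, (r τ g).trace) :
    ∃ j : (Fin 2 → K) →ₗ[K] V, j ≠ 0 ∧ ∀ g w, j ((r l g).mulVec w) = ρ g (j w) := by
  classical
  by_contra hno
  have hno' : ∀ j : (Fin 2 → K) →ₗ[K] V, (∀ g w, j ((r l g).mulVec w) = ρ g (j w)) → j = 0 :=
    fun j hj => by
      by_contra h0
      exact hno ⟨j, h0, hj⟩
  let σ : T → Representation K G (Fin 2 → K) := fun τ => rep2 (r τ)
  have hA : IsSemisimpleModule (MonoidAlgebra K G) ρ.asModule := semisimple_asModule ρ hss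
  have hB : ∀ τ, IsSemisimpleModule (MonoidAlgebra K G) (σ τ).asModule := fun τ =>
    semisimple_asModule (σ τ) fun U hU => by
      rcases hirr τ U fun g u hu => by
        rw [← rep2_apply]
        exact hU g u hu with h | h
      · exact ⟨⊤, fun _ _ _ => trivial, by rw [h]; exact isCompl_bot_top⟩
      · exact ⟨⊥, fun g u hu => by
          rw [(Submodule.mem_bot K).1 hu, map_zero]
          exact Submodule.zero_mem _, by rw [h]; exact isCompl_top_bot⟩
  have h1 : ∀ ψ : (σ l).asModule →ₗ[MonoidAlgebra K G] ρ.asModule, ψ = 0 := by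
    intro ψ
    obtain ⟨j, hj, hj'⟩ := equi_of ψ
    have h2 := hno' j fun g w => by rw [← rep2_apply]; exact hj g w
    refine LinearMap.ext fun w => ?_
    have h3 := hj' w
    rw [h2] at h3
    exact h3.symm
  have h2 : ∀ τ, τ ≠ l → ∀ ψ : (σ l).asModule →ₗ[MonoidAlgebra K G] (σ τ).asModule, ψ = 0 := by
    intro τ hτ ψ
    obtain ⟨j, hj, hj'⟩ := equi_of ψ
    have h2 := hne τ hτ j fun g w => by
      rw [← rep2_apply, ← rep2_apply]
      exact hj g w
    refine LinearMap.ext fun w => ?_
    have h3 := hj' w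
    rw [h2] at h3
    exact h3.symm
  -- maps to `σ l`
  have hsimple : ∀ {N : Type} [AddCommGroup N] [Module (MonoidAlgebra K G) N]
      (_ : IsSemisimpleModule (MonoidAlgebra K G) N)
      (_ : ∀ ψ : (σ l).asModule →ₗ[MonoidAlgebra K G] N, ψ = 0)
      (ψ : N →ₗ[MonoidAlgebra K G] (σ l).asModule), ψ = 0 := by
    intro N _ _ hN hN0 ψ
    obtain ⟨C, hC⟩ := hN.exists_isCompl (LinearMap.ker ψ)
    by_contra hψ
    have hr : LinearMap.range ψ = ⊤ := by
      have h3 := hirr l
        { carrier := {w | (σ l).asModuleEquiv.symm w ∈ LinearMap.range ψ}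
          zero_mem' := by
            change (σ l).asModuleEquiv.symm 0 ∈ LinearMap.range ψ
            rw [map_zero]
            exact Submodule.zero_mem _
          add_mem' := fun {a b} ha hb => by
            change (σ l).asModuleEquiv.symm (a + b) ∈ LinearMap.range ψ
            rw [map_add]
            exact Submodule.add_mem _ ha hb
          smul_mem' := fun k v hv => by
            change (σ l).asModuleEquiv.symm (k • v) ∈ LinearMap.range ψ
            rw [(σ l).asModuleEquiv_symm_map_smul]
            exact Submodule.smul_mem _ _ hv } (fun g u hu => by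
          change (σ l).asModuleEquiv.symm ((r l g).mulVec u) ∈ LinearMap.range ψ
          rw [← rep2_apply, (σ l).asModuleEquiv_symm_map_rho]
          exact Submodule.smul_mem _ _ hu)
      rcases h3 with h3 | h3
      · exfalso
        refine hψ (LinearMap.ext fun n => ?_)
        have h4 : (σ l).asModuleEquiv (ψ n) ∈ (⊥ : Submodule K (Fin 2 → K)) := by
          rw [← h3]
          exact ⟨n, rfl⟩
        exact (Submodule.mem_bot K).1 h4
      · rw [eq_top_iff]
        intro w _
        have h4 : (σ l).asModuleEquiv w ∈ (⊤ : Submodule K (Fin 2 → K)) := trivial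
        rw [← h3] at h4
        exact h4
    let ψ' : C →ₗ[MonoidAlgebra K G] (σ l).asModule := ψ.domRestrict C
    have hinj : Function.Injective ψ' := by
      rw [← LinearMap.ker_eq_bot, Submodule.eq_bot_iff]
      intro n hn
      have h4 : (n : N) ∈ LinearMap.ker ψ ⊓ C := ⟨hn, n.2⟩
      rw [hC.inf_eq_bot] at h4
      exact Subtype.ext ((Submodule.mem_bot _).1 h4)
    have hsurj : Function.Surjective ψ' := by
      intro w
      have h4 : w ∈ LinearMap.range ψ := by rw [hr]; trivial
      obtain ⟨n, rfl⟩ := h4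
      have h5 : n ∈ LinearMap.ker ψ ⊔ C := by rw [hC.sup_eq_top]; trivial
      obtain ⟨a, ha, b, hb, rfl⟩ := Submodule.mem_sup.1 h5
      exact ⟨⟨b, hb⟩, by
        change ψ b = ψ (a + b)
        rw [map_add, LinearMap.mem_ker.1 ha, zero_add]⟩
    let eq := LinearEquiv.ofBijective ψ' ⟨hinj, hsurj⟩
    have h4 := hN0 (C.subtype ∘ₗ eq.symm.toLinearMap)
    refine hψ (LinearMap.ext fun n => ?_)
    have h5 : eq.symm (ψ n) = 0 := Subtype.ext (LinearMap.congr_fun h4 (ψ n))
    rw [LinearEquiv.map_eq_zero_iff] at h5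
    exact h5
  have h3 := hsimple hA h1
  have h4 : ∀ τ, τ ≠ l → ∀ ψ : (σ τ).asModule →ₗ[MonoidAlgebra K G] (σ l).asModule, ψ = 0 :=
    fun τ hτ => hsimple (hB τ) (h2 τ hτ)
  -- the projection
  let X : Type _ := ρ.asModule × (∀ τ, (σ τ).asModule)
  let e : X →ₗ[MonoidAlgebra K G] X :=
    (LinearMap.inr (MonoidAlgebra K G) ρ.asModule (∀ τ, (σ τ).asModule)) ∘ₗ
      (LinearMap.single (MonoidAlgebra K G) (fun τ => (σ τ).asModule) l) ∘ₗ
      (LinearMap.proj l) ∘ₗ (LinearMap.snd (MonoidAlgebra K G) ρ.asModule (∀ τ, (σ τ).asModule))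
  have he : ∀ x : X, e x = (0, Pi.single l (x.2 l)) := fun x => rfl
  have hPe : ∀ (P : X →ₗ[MonoidAlgebra K G] X) (x : X), P (e x) = e (P (e x)) := by
    intro P x
    rw [he (P (e x))]
    refine Prod.ext ?_ (funext fun τ => ?_)
    · have h5 := h1 ((LinearMap.fst (MonoidAlgebra K G) ρ.asModule (∀ τ, (σ τ).asModule)) ∘ₗ P ∘ₗ
        (LinearMap.inr (MonoidAlgebra K G) ρ.asModule (∀ τ, (σ τ).asModule)) ∘ₗ
        (LinearMap.single (MonoidAlgebra K G) (fun τ => (σ τ).asModule) l))
      exact LinearMap.congr_fun h5 (x.2 l)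
    · change (P (e x)).2 τ = (Pi.single l ((P (e x)).2 l) : ∀ τ, (σ τ).asModule) τ
      by_cases hτ : τ = l
      · subst hτ
        rw [Pi.single_eq_same]
      · rw [Pi.single_eq_of_ne hτ]
        have h5 := h2 τ hτ ((LinearMap.proj τ) ∘ₗ
          (LinearMap.snd (MonoidAlgebra K G) ρ.asModule (∀ τ, (σ τ).asModule)) ∘ₗ P ∘ₗ
          (LinearMap.inr (MonoidAlgebra K G) ρ.asModule (∀ τ, (σ τ).asModule)) ∘ₗ
          (LinearMap.single (MonoidAlgebra K G) (fun τ => (σ τ).asModule) l))
        exact LinearMap.congr_fun h5 (x.2 l)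
  have heP : ∀ (P : X →ₗ[MonoidAlgebra K G] X) (x : X), x.2 l = 0 → (P x).2 l = 0 := by
    intro P x hx
    have h5 : x = (LinearMap.inl (MonoidAlgebra K G) ρ.asModule (∀ τ, (σ τ).asModule)) x.1 +
        ∑ τ, (LinearMap.inr (MonoidAlgebra K G) ρ.asModule (∀ τ, (σ τ).asModule))
          ((LinearMap.single (MonoidAlgebra K G) (fun τ => (σ τ).asModule) τ) (x.2 τ)) := by
      have h50 : ∑ τ, (LinearMap.inr (MonoidAlgebra K G) ρ.asModule (∀ τ, (σ τ).asModule))
          ((LinearMap.single (MonoidAlgebra K G) (fun τ => (σ τ).asModule) τ) (x.2 τ)) =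
          (LinearMap.inr (MonoidAlgebra K G) ρ.asModule (∀ τ, (σ τ).asModule)) x.2 := by
        rw [← map_sum]
        exact congrArg _ (Finset.univ_sum_single x.2)
      rw [h50]
      refine Prod.ext ?_ ?_
      · exact (add_zero x.1).symm
      · exact (zero_add x.2).symm
    rw [h5, map_add, map_sum, Prod.snd_add, Pi.add_apply, Prod.snd_sum, Finset.sum_apply]
    have h6 := h3 ((LinearMap.proj l) ∘ₗ
      (LinearMap.snd (MonoidAlgebra K G) ρ.asModule (∀ τ, (σ τ).asModule)) ∘ₗ P ∘ₗ
      (LinearMap.inl (MonoidAlgebra K G) ρ.asModule (∀ τ, (σ τ).asModule)))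
    have h7 := LinearMap.congr_fun h6 x.1
    rw [show (P ((LinearMap.inl (MonoidAlgebra K G) ρ.asModule (∀ τ, (σ τ).asModule)) x.1)).2 l
      = 0 from h7, zero_add]
    refine Finset.sum_eq_zero fun τ _ => ?_
    by_cases hτ : τ = l
    · subst hτ
      rw [hx, map_zero, map_zero, map_zero]
      rfl
    · have h8 := h4 τ hτ ((LinearMap.proj l) ∘ₗ
        (LinearMap.snd (MonoidAlgebra K G) ρ.asModule (∀ τ, (σ τ).asModule)) ∘ₗ P ∘ₗ
        (LinearMap.inr (MonoidAlgebra K G) ρ.asModule (∀ τ, (σ τ).asModule)) ∘ₗ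
        (LinearMap.single (MonoidAlgebra K G) (fun τ => (σ τ).asModule) τ))
      exact LinearMap.congr_fun h8 (x.2 τ)
  let f : Module.End (Module.End (MonoidAlgebra K G) X) X :=
    { toFun := e
      map_add' := map_add e
      map_smul' := fun P x => by
        change e (P x) = P (e x)
        have h5 : x = e x + (x - e x) := by abel
        have h6 : (x - e x).2 l = 0 := by
          rw [Prod.snd_sub, Pi.sub_apply, he]
          change x.2 l - (Pi.single l (x.2 l) : ∀ τ, (σ τ).asModule) l = 0
          rw [Pi.single_eq_same, sub_self]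
        have h7 : e (P (x - e x)) = 0 := by
          rw [he, heP P _ h6, Pi.single_zero]
          rfl
        conv_lhs => rw [h5, map_add, map_add, h7, add_zero]
        exact (hPe P x).symm }
  -- density
  let b := Module.finBasis K V
  let s : Finset X := (Finset.univ.image fun i => ((ρ.asModuleEquiv.symm (b i), 0) : X)) ∪
    (Finset.univ.image fun q : T × Fin 2 => ((0, Pi.single q.1 ((σ q.1).asModuleEquiv.symm
      (Pi.single q.2 1))) : X))
  have hX : IsSemisimpleModule (MonoidAlgebra K G) X :=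
    ss_prod (A := ρ.asModule) (B := ∀ τ, (σ τ).asModule)
  obtain ⟨z, hz⟩ := jacobson_density (R := MonoidAlgebra K G) (M := X) f s
  have hzA : ρ.asAlgebraHom z = 0 := by
    refine b.ext fun i => ?_
    have h5 := hz ((ρ.asModuleEquiv.symm (b i), 0) : X)
      (Finset.mem_union_left _ (Finset.mem_image_of_mem _ (Finset.mem_univ i)))
    exact (congrArg Prod.fst h5).symm
  have hzB : ∀ τ, τ ≠ l → (σ τ).asAlgebraHom z = 0 := by
    intro τ hτ
    refine (Pi.basisFun K (Fin 2)).ext fun k => ?_
    have h5 := hz ((0, Pi.single τ ((σ τ).asModuleEquiv.symm (Pi.single k 1))) : X)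
      (Finset.mem_union_right _ (Finset.mem_image_of_mem _ (Finset.mem_univ (τ, k))))
    have h6 := congrFun (congrArg Prod.snd h5) τ
    have h7 : (f ((0, Pi.single τ ((σ τ).asModuleEquiv.symm (Pi.single k 1))) : X)).2 τ = 0 := by
      change (Pi.single l ((Pi.single τ ((σ τ).asModuleEquiv.symm (Pi.single k 1)) :
        ∀ τ, (σ τ).asModule) l) : ∀ τ, (σ τ).asModule) τ = 0
      rw [Pi.single_eq_of_ne hτ]
    rw [h7] at h6
    have h8 : (z • ((0, Pi.single τ ((σ τ).asModuleEquiv.symm (Pi.single k 1))) : X)).2 τ =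
        z • ((σ τ).asModuleEquiv.symm (Pi.single k 1)) := by
      change z • ((Pi.single τ ((σ τ).asModuleEquiv.symm (Pi.single k 1)) :
        ∀ τ, (σ τ).asModule) τ) = _
      rw [Pi.single_eq_same]
    rw [h8] at h6
    rw [Pi.basisFun_apply, LinearMap.zero_apply]
    exact h6.symm
  have hzl : (σ l).asAlgebraHom z = 1 := by
    refine (Pi.basisFun K (Fin 2)).ext fun k => ?_
    have h5 := hz ((0, Pi.single l ((σ l).asModuleEquiv.symm (Pi.single k 1))) : X)
      (Finset.mem_union_right _ (Finset.mem_image_of_mem _ (Finset.mem_univ (l, k))))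
    have h6 := congrFun (congrArg Prod.snd h5) l
    have h7 : (f ((0, Pi.single l ((σ l).asModuleEquiv.symm (Pi.single k 1))) : X)).2 l =
        (σ l).asModuleEquiv.symm (Pi.single k 1) := by
      change (Pi.single l ((Pi.single l ((σ l).asModuleEquiv.symm (Pi.single k 1)) :
        ∀ τ, (σ τ).asModule) l) : ∀ τ, (σ τ).asModule) l = _
      rw [Pi.single_eq_same, Pi.single_eq_same]
    rw [h7] at h6
    have h8 : (z • ((0, Pi.single l ((σ l).asModuleEquiv.symm (Pi.single k 1))) : X)).2 l =
        z • ((σ l).asModuleEquiv.symm (Pi.single k 1)) := by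
      change z • ((Pi.single l ((σ l).asModuleEquiv.symm (Pi.single k 1)) :
        ∀ τ, (σ τ).asModule) l) = _
      rw [Pi.single_eq_same]
    rw [h8] at h6
    rw [Pi.basisFun_apply]
    exact h6.symm
  have htrz : ∀ z : MonoidAlgebra K G, LinearMap.trace K V (ρ.asAlgebraHom z) =
      ∑ τ, LinearMap.trace K (Fin 2 → K) ((σ τ).asAlgebraHom z) := by
    intro z
    induction z using MonoidAlgebra.induction_linear with
    | zero => simp
    | add a b ha hb =>
      rw [map_add, map_add, ha, hb, ← Finset.sum_add_distrib]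
      refine Finset.sum_congr rfl fun τ _ => ?_
      rw [map_add, map_add]
    | single g k =>
      rw [ρ.asAlgebraHom_single, map_smul, htr, Finset.smul_sum]
      refine Finset.sum_congr rfl fun τ _ => ?_
      rw [(σ τ).asAlgebraHom_single, map_smul, rep2_trace]
  have h5 := htrz z
  rw [hzA, map_zero, Finset.sum_eq_single l (fun τ _ hτ => by rw [hzB τ hτ, map_zero])
    (fun h => absurd (Finset.mem_univ l) h), hzl, LinearMap.trace_one] at h5
  simp at h5

end Run7.h43.ES
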