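import Pool.Agent.Run7.h43.ES.Lin

/-!
# A two-dimensional constituent of the Tate module of a simple abelian variety
-/

set_option autoImplicit false
set_option linter.unusedSectionVars false
set_option linter.style.haveILetI false

open TensorProduct Module

namespace Run7.h43.ES

section Base

variable (K : Type*) [Field K] [CharZero K]
variable (D : Type*) [DivisionRing D] [Algebra ℚ D] [FiniteDimensional ℚ D]
variable (M : Type*) [AddCommGroup M] [Module ℚ M] [Module D M] [IsScalarTower ℚ D M]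
  [FiniteDimensional ℚ M]

/-- The action of `K ⊗ D` on `K ⊗ M`. -/
noncomputable def actK : K ⊗[ℚ] D →ₐ[K] Module.End K (K ⊗[ℚ] M) :=
  Algebra.TensorProduct.lift (Algebra.ofId K (Module.End K (K ⊗[ℚ] M)))
    ((Module.End.baseChangeHom ℚ K M).comp (Algebra.lsmul ℚ ℚ M))
    (fun x _ => Algebra.commutes x _)

/-- The trace of the left multiplication on `K ⊗ D`. -/
noncomputable def tB : K ⊗[ℚ] D →ₗ[K] K :=
  LinearMap.trace K (K ⊗[ℚ] D) ∘ₗ LinearMap.mul K (K ⊗[ℚ] D)

variable {K D M}

theorem actK_tmul (k : K) (d : D) :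
    actK K D M (k ⊗ₜ d) = k • (Algebra.lsmul ℚ ℚ M d).baseChange K := by
  rw [actK, Algebra.TensorProduct.lift_tmul]
  refine LinearMap.ext fun v => ?_
  change (algebraMap K (Module.End K (K ⊗[ℚ] M)) k * _) v = _
  rw [Module.End.mul_apply, Module.algebraMap_end_apply, LinearMap.smul_apply]
  rfl

theorem actK_apply (k l : K) (d : D) (m : M) :
    actK K D M (k ⊗ₜ d) (l ⊗ₜ m) = (k * l) ⊗ₜ (d • m) := by
  rw [actK_tmul, LinearMap.smul_apply, LinearMap.baseChange_tmul, TensorProduct.smul_tmul',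
    smul_eq_mul]
  rfl

theorem actK_injective [Nontrivial M] : Function.Injective (actK K D M) := by
  obtain ⟨m, hm⟩ := exists_ne (0 : M)
  let f : D →ₗ[ℚ] M := (LinearMap.toSpanSingleton D M m).restrictScalars ℚ
  have hf : Function.Injective f := by
    intro a b hab
    have h1 : (a - b) • m = 0 := by
      rw [sub_smul]
      exact sub_eq_zero.2 hab
    rcases smul_eq_zero.1 h1 with h2 | h2
    · exact sub_eq_zero.1 h2
    · exact absurd h2 hm
  have hfK : Function.Injective (f.baseChange K) :=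
    Module.Flat.lTensor_preserves_injective_linearMap (M := K) f hf
  have h1 : ∀ y : K ⊗[ℚ] D, actK K D M y (1 ⊗ₜ m) = f.baseChange K y := by
    intro y
    induction y using TensorProduct.induction_on with
    | zero => rw [map_zero, map_zero, LinearMap.zero_apply]
    | tmul k d =>
      rw [actK_apply, LinearMap.baseChange_tmul, mul_one]
      rfl
    | add a b ha hb => rw [map_add, map_add, LinearMap.add_apply, ha, hb]
  intro a b hab
  refine hfK ?_
  rw [← h1, ← h1, hab]

theorem tB_tmul (k : K) (d : D) : tB K D (k ⊗ₜ d) = k * (tau D d : K) := by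
  have h1 : k ⊗ₜ[ℚ] d = k • ((1 : K) ⊗ₜ[ℚ] d) := by
    rw [TensorProduct.smul_tmul', smul_eq_mul, mul_one]
  rw [h1, map_smul, smul_eq_mul]
  congr 1
  have h2 : LinearMap.mul K (K ⊗[ℚ] D) ((1 : K) ⊗ₜ[ℚ] d) =
      (LinearMap.mulLeft ℚ d).baseChange K := by
    refine LinearMap.ext fun y => ?_
    induction y using TensorProduct.induction_on with
    | zero => rw [map_zero, map_zero]
    | tmul l e =>
      rw [LinearMap.baseChange_tmul, LinearMap.mul_apply', Algebra.TensorProduct.tmul_mul_tmul,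
        one_mul]
      rfl
    | add a b ha hb => rw [map_add, map_add, ha, hb]
  change LinearMap.trace K (K ⊗[ℚ] D) (LinearMap.mul K (K ⊗[ℚ] D) ((1 : K) ⊗ₜ[ℚ] d)) = _
  rw [h2, LinearMap.trace_baseChange]
  rfl

theorem tB_comm (x y : K ⊗[ℚ] D) : tB K D (x * y) = tB K D (y * x) := by
  change LinearMap.trace K (K ⊗[ℚ] D) (LinearMap.mulLeft K (x * y)) =
    LinearMap.trace K (K ⊗[ℚ] D) (LinearMap.mulLeft K (y * x))
  rw [LinearMap.mulLeft_mul, LinearMap.mulLeft_mul]
  exact LinearMap.trace_mul_comm K (LinearMap.mulLeft K x) (LinearMap.mulLeft K y)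

/-- Linear functionals on `K ⊗ D` which agree on the elements of `D` are equal. -/
theorem ext_tmul {f g : K ⊗[ℚ] D →ₗ[K] K} (h : ∀ d : D, f (1 ⊗ₜ d) = g (1 ⊗ₜ d)) : f = g := by
  refine LinearMap.ext fun y => ?_
  induction y using TensorProduct.induction_on with
  | zero => rw [map_zero, map_zero]
  | tmul k d =>
    have h1 : k ⊗ₜ[ℚ] d = k • ((1 : K) ⊗ₜ[ℚ] d) := by
      rw [TensorProduct.smul_tmul', smul_eq_mul, mul_one]
    rw [h1, map_smul, map_smul, h]
  | add a b ha hb => rw [map_add, map_add, ha, hb]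

/-- The trace of `y p` for an idempotent `p` which commutes with `D`. -/
theorem trace_actK {p : Module.End ℚ M} {n : ℕ}
    (hn : ∀ d : D, LinearMap.trace ℚ M (Algebra.lsmul ℚ ℚ M d * p) = (n : ℚ) * tau D d)
    (y : K ⊗[ℚ] D) :
    LinearMap.trace K (K ⊗[ℚ] M) (actK K D M y * p.baseChange K) = (n : K) * tB K D y := by
  have h := ext_tmul (K := K) (D := D)
    (f := LinearMap.trace K (K ⊗[ℚ] M) ∘ₗ LinearMap.mulRight K (p.baseChange K) ∘ₗ
      (actK K D M).toLinearMap) (g := (n : K) • tB K D) (fun d => by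
    change LinearMap.trace K (K ⊗[ℚ] M) (actK K D M (1 ⊗ₜ d) * p.baseChange K) =
      (n : K) • tB K D (1 ⊗ₜ d)
    rw [actK_tmul, one_smul, ← LinearMap.baseChange_mul, LinearMap.trace_baseChange, hn, tB_tmul,
      one_mul, smul_eq_mul, map_mul, map_natCast]
    rfl)
  exact LinearMap.congr_fun h y

theorem tB_nondeg {y : K ⊗[ℚ] D} (h : ∀ z, tB K D (z * y) = 0) : y = 0 := by
  classical
  let e := Module.finBasis ℚ D
  -- the dual basis
  have h1 : ∀ i, ∃ t : D, ∀ d, e.repr d i = tau D (t * d) := fun i =>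
    exists_rep ((Finsupp.lapply i) ∘ₗ e.repr.toLinearMap)
  choose t ht using h1
  have h2 : ∀ i (w : K ⊗[ℚ] D), (e.baseChange K).repr w i = tB K D ((1 ⊗ₜ t i) * w) := by
    intro i w
    have h3 := ext_tmul (K := K) (D := D)
      (f := (Finsupp.lapply i) ∘ₗ (e.baseChange K).repr.toLinearMap)
      (g := tB K D ∘ₗ LinearMap.mulLeft K ((1 : K) ⊗ₜ[ℚ] t i)) (fun d => by
      change (e.baseChange K).repr (1 ⊗ₜ d) i = tB K D ((1 ⊗ₜ t i) * (1 ⊗ₜ d))
      rw [Algebra.TensorProduct.tmul_mul_tmul, one_mul, tB_tmul, one_mul, ← ht,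
        Module.Basis.baseChange_repr_tmul, Algebra.smul_def, mul_one]
      rfl)
    exact LinearMap.congr_fun h3 w
  refine (e.baseChange K).repr.injective (Finsupp.ext fun i => ?_)
  rw [h2, h, map_zero, Finsupp.zero_apply]

end Base

end Run7.h43.ES
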