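import Pool.Agent.Run7.h43.ES.Fld

/-!
# Number fields, simple abelian varieties and Hilbert newforms: the properties which are used

The number fields contained in the field `ℚ̄` of all algebraic complex numbers are described by the
open subgroups of `𝔾 = Gal(ℚ̄/ℚ)`; `K` is an algebraic closure of `ℚ_ℓ`.
-/

set_option autoImplicit false

open TensorProduct

namespace Run7.h43.ES

/-- The number fields and their Frobenius elements. The field of an open subgroup `H` of
`𝔾 = Gal(ℚ̄/ℚ)` is the field of invariants of `H`, and its degree is the index of `H`. -/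
structure NumberFields (𝔾 : Type) [Group 𝔾] [TopologicalSpace 𝔾] where
  /-- the complex conjugation of `ℚ̄ ⊆ ℂ` -/
  conj : 𝔾
  conj_mul : conj * conj = 1
  /-- the finite places of the field of `H` -/
  Place : Subgroup 𝔾 → Type
  /-- the number of elements of the residue field -/
  norm : ∀ {H : Subgroup 𝔾}, Place H → ℕ
  /-- the Frobenius elements at a finite place -/
  frob : ∀ {H : Subgroup 𝔾}, Place H → Set H
  frob_nonempty : ∀ {H : Subgroup 𝔾} (v : Place H), (frob v).Nonempty
  /-- the density theorem of Chebotarev -/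
  chebotarev : ∀ H : Subgroup 𝔾, IsOpen (H : Set 𝔾) → ∀ S : Set (Place H), S.Finite →
    Dense {g : H | ∃ v, v ∉ S ∧ g ∈ frob v}

/-- `H` is the Galois group of a number field. -/
def IsField {𝔾 : Type} [Group 𝔾] [TopologicalSpace 𝔾] (H : Subgroup 𝔾) : Prop :=
  IsOpen (H : Set 𝔾) ∧ H.FiniteIndex

/-- The field of `H` is totally real: `H` contains all conjugates of the complex conjugation. -/
def TotallyReal {𝔾 : Type} [Group 𝔾] [TopologicalSpace 𝔾] (F : NumberFields 𝔾)
    (H : Subgroup 𝔾) : Prop :=
  ∀ x : 𝔾, x * F.conj * x⁻¹ ∈ H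

/-- The homology of a simple abelian variety `A` over a number field: the division algebra
`D = End(A) ⊗ ℚ` and the `D`-module `M = H_1(A(ℂ), ℚ)`. -/
structure Homology where
  /-- the endomorphism algebra -/
  D : Type
  /-- the rational homology -/
  M : Type
  [divisionRing : DivisionRing D]
  [algebra : Algebra ℚ D]
  [finiteD : FiniteDimensional ℚ D]
  [addCommGroup : AddCommGroup M]
  [module : Module ℚ M]
  [moduleD : Module D M]
  [tower : IsScalarTower ℚ D M]
  [finiteM : FiniteDimensional ℚ M]

attribute [instance] Homology.divisionRing Homology.algebra Homology.finiteD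
  Homology.addCommGroup Homology.module Homology.moduleD Homology.tower
  Homology.finiteM

section

variable (K : Type) [Field K] [CharZero K]

/-- The space `K ⊗ H_1(A(ℂ), ℚ) = K ⊗ V_ℓ(A)`. -/
def Homology.V (X : Homology) : Type := K ⊗[ℚ] X.M

noncomputable instance (X : Homology) : AddCommGroup (X.V K) :=
  inferInstanceAs (AddCommGroup (K ⊗[ℚ] X.M))

noncomputable instance (X : Homology) : Module K (X.V K) :=
  inferInstanceAs (Module K (K ⊗[ℚ] X.M))

instance (X : Homology) : FiniteDimensional K (X.V K) :=
  inferInstanceAs (FiniteDimensional K (K ⊗[ℚ] X.M))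

/-- The extension of an endomorphism of `H_1(A(ℂ), ℚ)` to `K ⊗ V_ℓ(A)`. -/
noncomputable def Homology.extend (X : Homology) (φ : Module.End ℚ X.M) :
    Module.End K (X.V K) := φ.baseChange K

/-- The action of the endomorphism `d` of the abelian variety on `H_1(A(ℂ), ℚ)`. -/
def Homology.act (X : Homology) (d : X.D) : Module.End ℚ X.M := Algebra.lsmul ℚ ℚ X.M d

/-- The Tate module of a simple abelian variety over the field of `H ⊆ Gal(ℚ̄/ℚ)`: the action of `H`
on `K ⊗ V_ℓ(A)`. -/
structure TateModule {𝔾 : Type} [Group 𝔾] (H : Subgroup 𝔾) extends Homology where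
  /-- the action of the Galois group -/
  rho : H →* Module.End K (toHomology.V K)

end

section

variable {K : Type} [Field K] [CharZero K] {𝔾 : Type} [Group 𝔾] {H H' : Subgroup 𝔾}

/-- The trace on the Tate module. -/
noncomputable def TateModule.tr (T : TateModule K H) (x : Module.End K (T.V K)) : K :=
  LinearMap.trace K (T.V K) x

/-- `x` is an endomorphism of the Tate module as a representation. -/
def IsEndo (T : TateModule K H) (x : Module.End K (T.V K)) : Prop :=
  ∀ g, T.rho g * x = x * T.rho g

/-- `x` is a combination of endomorphisms of the abelian variety. -/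
def IsCombination (T : TateModule K H) (x : Module.End K (T.V K)) : Prop :=
  x ∈ Submodule.span K (Set.range fun d : T.D => T.extend K (T.act d))

/-- The subspace `U` is stable under the Galois group. -/
def IsStable (T : TateModule K H) (U : Submodule K (T.V K)) : Prop :=
  ∀ g, ∀ u ∈ U, T.rho g u ∈ U

/-- The theorems of Faltings: the endomorphisms of the Tate module are the combinations of the
endomorphisms of the abelian variety, and the Tate module is semisimple. -/
structure Faltings (T : TateModule K H) : Prop where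
  comm : ∀ d : T.D, IsEndo T (T.extend K (T.act d))
  commutant : ∀ x : Module.End K (T.V K), IsEndo T x → IsCombination T x
  semisimple : ∀ U : Submodule K (T.V K), IsStable T U →
    ∃ U' : Submodule K (T.V K), IsStable T U' ∧ IsCompl U U'

/-- The traces of `g ^ n d` are rational, for `g` in `S` and the endomorphisms `d` (they are traces of
endomorphisms of the reduction of the abelian variety if `g` is a Frobenius element). -/
def RationalAt (T : TateModule K H) (S : Set H) : Prop :=
  ∀ g ∈ S, ∀ (n : ℕ) (d : T.D), ∃ q : ℚ, T.tr (T.rho g ^ n * T.extend K (T.act d)) = q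

/-- The element `c` acts on `H_1(A(ℂ), ℚ)`. -/
def RealAt (T : TateModule K H) (c : H) : Prop :=
  ∃ φ : Module.End ℚ T.M, T.rho c = T.extend K φ

/-- The coinduced representation of `H`, for a representation of `H'`: the functions `f` on `H` with
`f (x y) = x f(y)` for `x ∈ H'`. -/
def coind (hle : H' ≤ H) (T : TateModule K H') : Set (H → T.V K) :=
  {f | ∀ (x : H') (y : H), f (⟨x, hle x.2⟩ * y) = T.rho x (f y)}

/-- `e` is a map of representations from the coinduced representation of `B` to `A`. -/
def FromCoind (hle : H' ≤ H) (B : TateModule K H') (A : TateModule K H)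
    (e : (H → B.V K) →ₗ[K] A.V K) : Prop :=
  ∀ f ∈ coind hle B, ∀ g : H, e (fun x => f (x * g)) = A.rho g (e f)

/-- The Tate module of the Weil restriction of `B`, the coinduced representation, is a submodule of
the product of the Tate modules of the `A i`. -/
def WeilRestriction (hle : H' ≤ H) (B : TateModule K H') {n : ℕ} (A : Fin n → TateModule K H) :
    Prop :=
  ∃ e : ∀ i, (H → B.V K) →ₗ[K] (A i).V K, (∀ i, FromCoind hle B (A i) (e i)) ∧
    ∀ f ∈ coind hle B, (∀ i, e i f = 0) → f = 0

/-- `e` is a map of representations of `H'` from `A` to `B`. -/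
def FromRestriction (hle : H' ≤ H) (A : TateModule K H) (B : TateModule K H')
    (e : A.V K →ₗ[K] B.V K) : Prop :=
  ∀ (h : H') (v : A.V K), e (A.rho ⟨h, hle h.2⟩ v) = B.rho h (e v)

/-- The Tate module of `A`, restricted to `H'`, is a submodule of the product of the Tate modules of
the `B i`. -/
def BaseExtension (hle : H' ≤ H) (A : TateModule K H) {n : ℕ} (B : Fin n → TateModule K H') :
    Prop :=
  ∃ e : ∀ i, A.V K →ₗ[K] (B i).V K, (∀ i, FromRestriction hle A (B i) (e i)) ∧
    ∀ v : A.V K, (∀ i, e i v = 0) → v = 0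

end

/-- The simple abelian varieties over number fields (up to isogeny), with the known properties of
their Tate modules. -/
structure AbelianVarieties {𝔾 : Type} [Group 𝔾] [TopologicalSpace 𝔾] (F : NumberFields 𝔾)
    (K : Type) [Field K] [CharZero K] [TopologicalSpace K] where
  /-- the simple abelian varieties over the field of `H` -/
  Simple : Subgroup 𝔾 → Type
  /-- the endomorphism algebra, the homology and the Tate module -/
  tate : ∀ {H : Subgroup 𝔾}, Simple H → TateModule K H
  /-- the places of bad reduction and the places above `ℓ` -/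
  bad : ∀ {H : Subgroup 𝔾}, Simple H → Set (F.Place H)
  bad_finite : ∀ {H : Subgroup 𝔾} (A : Simple H), (bad A).Finite
  /-- the theorems of Faltings -/
  faltings : ∀ {H : Subgroup 𝔾} (A : Simple H), Faltings (tate A)
  /-- the action is continuous -/
  continuous : ∀ {H : Subgroup 𝔾} (A : Simple H) (y : Module.End K ((tate A).V K)),
    Continuous fun g : H => (tate A).tr ((tate A).rho g * y)
  /-- the traces of the endomorphisms of the reduction are rational -/
  rational : ∀ {H : Subgroup 𝔾} (A : Simple H), ∀ v, v ∉ bad A → RationalAt (tate A) (F.frob v)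
  /-- the complex conjugation acts on `H_1(A(ℂ), ℚ)` if the field is real -/
  real : ∀ {H : Subgroup 𝔾} (A : Simple H) (hc : F.conj ∈ H), RealAt (tate A) ⟨F.conj, hc⟩
  /-- the Weil restriction of `B` is isogenous to a product of simple abelian varieties -/
  weil : ∀ {H H' : Subgroup 𝔾} (hle : H' ≤ H), IsField H → IsField H' → ∀ B : Simple H',
    ∃ (n : ℕ) (A : Fin n → Simple H), WeilRestriction hle (tate B) fun i => tate (A i)
  /-- over a finite extension `A` is isogenous to a product of simple abelian varieties -/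
  extend : ∀ {H H' : Subgroup 𝔾} (hle : H' ≤ H), IsField H → IsField H' → ∀ A : Simple H,
    ∃ (n : ℕ) (B : Fin n → Simple H'), BaseExtension hle (tate A) fun i => tate (B i)

/-- The data of a Hilbert newform `f` of parallel weight two with trivial central character over the
totally real field of `H`. -/
structure FormData {𝔾 : Type} [Group 𝔾] [TopologicalSpace 𝔾] (F : NumberFields 𝔾)
    (K : Type) [Field K] [CharZero K] (H : Subgroup 𝔾) where
  /-- the field `M_f` generated by the Hecke eigenvalues -/
  E : Type
  [field : Field E]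
  [algebra : Algebra ℚ E]
  [finite : FiniteDimensional ℚ E]
  /-- the Hecke eigenvalues -/
  eigenvalue : F.Place H → E
  /-- the exponents of the level -/
  exponent : F.Place H → ℕ
  /-- the places which divide the level or `ℓ` -/
  bad : Set (F.Place H)
  /-- the Galois representations of the conjugate newforms `f ^ τ` -/
  rho : (E →ₐ[ℚ] K) → H →* Matrix (Fin 2) (Fin 2) K

attribute [instance] FormData.field FormData.algebra FormData.finite

/-- The known properties of the Galois representations of a newform. -/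
structure FormData.Good {𝔾 : Type} [Group 𝔾] [TopologicalSpace 𝔾] {F : NumberFields 𝔾}
    {K : Type} [Field K] [CharZero K] [TopologicalSpace K] {H : Subgroup 𝔾}
    (f : FormData F K H) : Prop where
  bad_finite : f.bad.Finite
  /-- strong multiplicity one: almost all eigenvalues generate the field -/
  generate : ∀ S : Set (F.Place H), S.Finite → Algebra.adjoin ℚ (f.eigenvalue '' Sᶜ) = ⊤
  irreducible : ∀ (τ : f.E →ₐ[ℚ] K) (U : Submodule K (Fin 2 → K)),
    (∀ g, ∀ u ∈ U, (f.rho τ g).mulVec u ∈ U) → U = ⊥ ∨ U = ⊤
  continuous : ∀ τ : f.E →ₐ[ℚ] K, Continuous fun g : H => (f.rho τ g).trace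
  trace_frob : ∀ (τ : f.E →ₐ[ℚ] K), ∀ v, v ∉ f.bad → ∀ g ∈ F.frob v,
    (f.rho τ g).trace = τ (f.eigenvalue v) ∧ (f.rho τ g).det = F.norm v
  /-- the Galois representations are odd -/
  odd : ∀ (τ : f.E →ₐ[ℚ] K) (hc : F.conj ∈ H), (f.rho τ ⟨F.conj, hc⟩).trace = 0

/-- The trace of `α ^ n + β ^ n` for the roots `α`, `β` of `X ^ 2 - a_v X + N v`. -/
noncomputable def FormData.powerTrace {𝔾 : Type} [Group 𝔾] [TopologicalSpace 𝔾]
    {F : NumberFields 𝔾} {K : Type} [Field K] [CharZero K] {H : Subgroup 𝔾}
    (f : FormData F K H) (v : F.Place H) (n : ℕ) : ℚ :=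
  Algebra.trace ℚ f.E (powerSum (f.eigenvalue v) (F.norm v : f.E) n)

/-- The Hilbert newforms of parallel weight two with trivial central character. -/
structure Newforms {𝔾 : Type} [Group 𝔾] [TopologicalSpace 𝔾] (F : NumberFields 𝔾)
    (K : Type) [Field K] [CharZero K] [TopologicalSpace K] where
  /-- the newforms over the field of `H` (there are none if the field is not totally real) -/
  Form : Subgroup 𝔾 → Type
  /-- the data of the newform -/
  data : ∀ {H : Subgroup 𝔾}, Form H → FormData F K H
  good : ∀ {H : Subgroup 𝔾} (f : Form H), (data f).Good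

section

variable {𝔾 : Type} [Group 𝔾] [TopologicalSpace 𝔾] {F : NumberFields 𝔾} {K : Type} [Field K]
  [CharZero K] [TopologicalSpace K] (𝒜 : AbelianVarieties F K) (𝒩 : Newforms F K)

/-- `L(A, s) = Λ_f(s)` up to finitely many Euler factors: for almost all `v` the polynomial of
Frobenius on the Tate module of `A` is the product of the polynomials `X ^ 2 - τ(a_v) X + N v`, that is,
the traces of the powers of Frobenius are the traces of the sums `α ^ n + β ^ n` for the roots
`α`, `β` of `X ^ 2 - a_v X + N v`. -/
def IsAssociated {H : Subgroup 𝔾} (f : 𝒩.Form H) (A : 𝒜.Simple H) : Prop :=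
  ∃ S : Set (F.Place H), S.Finite ∧ ∀ v, v ∉ S → ∀ g ∈ F.frob v, ∀ n : ℕ,
    (𝒜.tate A).tr ((𝒜.tate A).rho g ^ n) = ((𝒩.data f).powerTrace v n : K)

/-- The newform has an abelian variety `A_f`. -/
def HasAV {H : Subgroup 𝔾} (f : 𝒩.Form H) : Prop := ∃ A : 𝒜.Simple H, IsAssociated 𝒜 𝒩 f A

/-- The Galois representation of `f` (or of a conjugate) occurs in the Tate module of the abelian
variety `B` over a finite extension of the field of `f`. -/
def Occurs {H H' : Subgroup 𝔾} (hle : H' ≤ H) (f : 𝒩.Form H) (B : 𝒜.Simple H') : Prop :=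
  ∃ (τ : (𝒩.data f).E →ₐ[ℚ] K) (j : (Fin 2 → K) →ₗ[K] (𝒜.tate B).V K), j ≠ 0 ∧
    ∀ (h : H') (w : Fin 2 → K),
      j (((𝒩.data f).rho τ ⟨h, hle h.2⟩).mulVec w) = (𝒜.tate B).rho h (j w)

/-- The Galois representations of `f₁` and `f₂` (or of conjugates) are isomorphic over the field of
`H'`. -/
def Isomorphic {H₁ H₂ H' : Subgroup 𝔾} (h₁ : H' ≤ H₁) (h₂ : H' ≤ H₂) (f₁ : 𝒩.Form H₁)
    (f₂ : 𝒩.Form H₂) : Prop :=
  ∃ (τ₁ : (𝒩.data f₁).E →ₐ[ℚ] K) (τ₂ : (𝒩.data f₂).E →ₐ[ℚ] K)
    (P : Matrix (Fin 2) (Fin 2) K), IsUnit P ∧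
    ∀ h : H', P * (𝒩.data f₁).rho τ₁ ⟨h, h₁ h.2⟩ = (𝒩.data f₂).rho τ₂ ⟨h, h₂ h.2⟩ * P

/-- The theorem of Zhang. -/
def ZhangTheorem : Prop := ∀ H : Subgroup 𝔾, IsField H → TotallyReal F H → ∀ f : 𝒩.Form H,
  (Odd H.index ∨ ∃ v, Odd ((𝒩.data f).exponent v)) → HasAV 𝒜 𝒩 f

/-- Base change to a solvable totally real extension with prescribed completions (Langlands): one
reaches level one, or a level which some place divides exactly once. -/
def BaseChange : Prop := ∀ H : Subgroup 𝔾, IsField H → TotallyReal F H → ∀ f : 𝒩.Form H,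
  ∃ (H' : Subgroup 𝔾) (hle : H' ≤ H), IsField H' ∧ TotallyReal F H' ∧ ∃ f' : 𝒩.Form H',
    ((∀ v, (𝒩.data f').exponent v = 0) ∨ ∃ v, (𝒩.data f').exponent v = 1) ∧
    Isomorphic 𝒩 hle le_rfl f f'

/-- Q1: existence of `A_f` for fields of even degree and levels with even exponents. -/
def Question : Prop := ∀ H : Subgroup 𝔾, IsField H → TotallyReal F H → Even H.index →
  ∀ f : 𝒩.Form H, (∀ v, Even ((𝒩.data f).exponent v)) → HasAV 𝒜 𝒩 f

/-- Q1 for level one. -/
def LevelOneQuestion : Prop := ∀ H : Subgroup 𝔾, IsField H → TotallyReal F H → Even H.index →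
  ∀ f : 𝒩.Form H, (∀ v, (𝒩.data f).exponent v = 0) → HasAV 𝒜 𝒩 f

end

end Run7.h43.ES
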