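import Pool.Agent.Run7.h43.ES.BN
import Pool.Agent.Run7.h43.ES.Defs

/-!
# Descent of the abelian variety of a newform
-/

set_option autoImplicit false
set_option linter.unusedSectionVars false
set_option linter.style.haveILetI false

open TensorProduct Module

namespace Run7.h43.ES

variable {𝔾 : Type} [Group 𝔾] [TopologicalSpace 𝔾] {F : NumberFields 𝔾} {K : Type} [Field K]
  [CharZero K] [TopologicalSpace K] [IsTopologicalRing K] [T2Space K] [IsAlgClosed K]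
  {𝒜 : AbelianVarieties F K} {𝒩 : Newforms F K}

/-- Continuous functions which agree on Frobenius elements are equal. -/
theorem eq_of_frob {H : Subgroup 𝔾} (hH : IsOpen (H : Set 𝔾)) {S : Set (F.Place H)}
    (hS : S.Finite) {u w : H → K} (hu : Continuous u) (hw : Continuous w)
    (h : ∀ v, v ∉ S → ∀ g ∈ F.frob v, u g = w g) (g : H) : u g = w g := by
  have h1 := F.chebotarev H hH S hS
  have h2 : u = w := Continuous.ext_on h1 hu hw (by
    rintro g ⟨v, hv, hg⟩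
    exact h v hv g hg)
  rw [h2]

omit [TopologicalSpace 𝔾] [TopologicalSpace K] [IsTopologicalRing K] [T2Space K]
  [IsAlgClosed K] in
/-- The field of the traces, for a Tate module. -/
theorem fot {H : Subgroup 𝔾} {T : TateModule K H} (h : Faltings T) {c : H} (hc : c * c = 1)
    (hφ : RealAt T c) {r : H →* Matrix (Fin 2) (Fin 2) K} (htr : (r c).trace = 0)
    {j : (Fin 2 → K) →ₗ[K] T.V K} (hj : Function.Injective j)
    (hjr : ∀ g w, j ((r g).mulVec w) = T.rho g (j w)) {Pl : Type} {good : Set Pl}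
    {Fr : Pl → Set H} {E : Type} [Field E] [Algebra ℚ E] [FiniteDimensional ℚ E]
    (lam : E →+* K) {a : Pl → E} {N : Pl → ℕ} (hgen : Algebra.adjoin ℚ (a '' good) = ⊤)
    (hFr : ∀ v ∈ good, (Fr v).Nonempty)
    (ha : ∀ v ∈ good, ∀ g ∈ Fr v, (r g).trace = lam (a v))
    (hN : ∀ v ∈ good, ∀ g ∈ Fr v, (r g).det = N v)
    (hrat : ∀ v ∈ good, RationalAt T (Fr v))
    (hden : ∀ y : Module.End K (T.V K),
      (∀ v ∈ good, ∀ g ∈ Fr v, T.tr (T.rho g * y) = 0) → ∀ g, T.tr (T.rho g * y) = 0) :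
    Nonempty (E ≃+* T.D) ∧ finrank ℚ T.M = 2 * finrank ℚ E ∧
    ∀ v ∈ good, ∀ g ∈ Fr v, ∀ n : ℕ, T.tr (T.rho g ^ n) =
      ((Algebra.trace ℚ E (powerSum (a v) (N v : E) n) : ℚ) : K) := by
  obtain ⟨φ, hφ⟩ := hφ
  exact field_of_traces (K := K) (D := T.D) (M := T.M) (G := H) (ρ := T.rho)
    (IsTate.mk (fun g d => h.comm d g) h.commutant h.semisimple) hc hφ htr hj hjr lam hgen hFr ha hN
    hrat hden

/-- **Descent.** If the Galois representation of `f` occurs in an abelian variety over a finite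
extension, then `f` has an abelian variety. -/
theorem hasAV_of_occurs {H H' : Subgroup 𝔾} (hle : H' ≤ H) (hH : IsField H) (hH' : IsField H')
    (hc : F.conj ∈ H) (f : 𝒩.Form H) (B : 𝒜.Simple H') (h : Occurs 𝒜 𝒩 hle f B) :
    HasAV 𝒜 𝒩 f := by
  classical
  obtain ⟨τ, j, hj0, hj⟩ := h
  obtain ⟨n, A, e, he', he⟩ := 𝒜.weil hle hH hH' B
  let J : (Fin 2 → K) →ₗ[K] (H → (𝒜.tate B).V K) :=
    { toFun := fun w x => j (((𝒩.data f).rho τ x).mulVec w)
      map_add' := fun a b => by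
        funext x
        rw [Matrix.mulVec_add, map_add]
        rfl
      map_smul' := fun k a => by
        funext x
        rw [Matrix.mulVec_smul, map_smul]
        rfl }
  have hJ : ∀ w, J w ∈ coind hle (𝒜.tate B) := by
    intro w x y
    change j (((𝒩.data f).rho τ (⟨x, hle x.2⟩ * y)).mulVec w) =
      (𝒜.tate B).rho x (j (((𝒩.data f).rho τ y).mulVec w))
    rw [map_mul, ← Matrix.mulVec_mulVec, hj]
  have hJg : ∀ (g : H) w, J (((𝒩.data f).rho τ g).mulVec w) = fun x => J w (x * g) := by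
    intro g w
    funext x
    change j (((𝒩.data f).rho τ x).mulVec (((𝒩.data f).rho τ g).mulVec w)) =
      j (((𝒩.data f).rho τ (x * g)).mulVec w)
    rw [map_mul, Matrix.mulVec_mulVec]
  have hJ0 : ∃ w i, e i (J w) ≠ 0 := by
    by_contra hno
    push Not at hno
    refine hj0 (LinearMap.ext fun w => ?_)
    have h1 := he (J w) (hJ w) (hno w)
    have h2 := congrFun h1 1
    change j (((𝒩.data f).rho τ 1).mulVec w) = 0 at h2
    rwa [map_one, Matrix.one_mulVec] at h2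
  obtain ⟨w0, i, hi⟩ := hJ0
  let ji : (Fin 2 → K) →ₗ[K] (𝒜.tate (A i)).V K := e i ∘ₗ J
  have hji : ∀ (g : H) w, ji (((𝒩.data f).rho τ g).mulVec w) = (𝒜.tate (A i)).rho g (ji w) := by
    intro g w
    change e i (J (((𝒩.data f).rho τ g).mulVec w)) = (𝒜.tate (A i)).rho g (e i (J w))
    rw [hJg, he' i _ (hJ w)]
  have hinj : Function.Injective ji := by
    rw [← LinearMap.ker_eq_bot]
    rcases (𝒩.good f).irreducible τ (LinearMap.ker ji) (fun g u hu => by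
      rw [LinearMap.mem_ker, hji, LinearMap.mem_ker.1 hu, map_zero]) with h1 | h1
    · exact h1
    · exfalso
      have h2 : w0 ∈ LinearMap.ker ji := by rw [h1]; trivial
      exact hi (LinearMap.mem_ker.1 h2)
  have hfin : (𝒜.bad (A i) ∪ (𝒩.data f).bad).Finite :=
    (𝒜.bad_finite _).union (𝒩.good f).bad_finite
  obtain ⟨-, -, h3⟩ := fot (𝒜.faltings (A i)) (c := ⟨F.conj, hc⟩)
    (Subtype.ext F.conj_mul) (𝒜.real (A i) hc) (r := (𝒩.data f).rho τ)
    ((𝒩.good f).odd τ hc) hinj hji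
    (good := (𝒜.bad (A i) ∪ (𝒩.data f).bad)ᶜ) (Fr := fun v => F.frob v) τ.toRingHom
    (a := (𝒩.data f).eigenvalue) (N := F.norm) ((𝒩.good f).generate _ hfin)
    (fun v _ => F.frob_nonempty v)
    (fun v hv g hg => ((𝒩.good f).trace_frob τ v (fun h => hv (Or.inr h)) g hg).1)
    (fun v hv g hg => ((𝒩.good f).trace_frob τ v (fun h => hv (Or.inr h)) g hg).2)
    (fun v hv => 𝒜.rational (A i) v (fun h => hv (Or.inl h)))
    (fun y hy g => eq_of_frob (u := fun g => (𝒜.tate (A i)).tr ((𝒜.tate (A i)).rho g * y))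
      (w := fun _ => 0) hH.1 hfin (𝒜.continuous (A i) y) continuous_const
      (fun v hv g hg => hy v hv g hg) g)
  exact ⟨A i, _, hfin, fun v hv g hg n => h3 v hv g hg n⟩

/-- Nonzero maps between the representations of the conjugate newforms. -/
theorem conj_eq {H : Subgroup 𝔾} (f : 𝒩.Form H) (l τ : (𝒩.data f).E →ₐ[ℚ] K)
    (j : (Fin 2 → K) →ₗ[K] (Fin 2 → K)) (hj0 : j ≠ 0)
    (hj : ∀ g w, j (((𝒩.data f).rho l g).mulVec w) = ((𝒩.data f).rho τ g).mulVec (j w)) : τ = l := by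
  classical
  have hinj : Function.Injective j := by
    rw [← LinearMap.ker_eq_bot]
    rcases (𝒩.good f).irreducible l (LinearMap.ker j) (fun g u hu => by
      rw [LinearMap.mem_ker, hj, LinearMap.mem_ker.1 hu, Matrix.mulVec_zero]) with h1 | h1
    · exact h1
    · exact absurd (LinearMap.ker_eq_top.1 h1) hj0
  let e : (Fin 2 → K) ≃ₗ[K] (Fin 2 → K) := LinearEquiv.ofInjectiveEndo j hinj
  have htr : ∀ g, ((𝒩.data f).rho l g).trace = ((𝒩.data f).rho τ g).trace := by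
    intro g
    have h1 : e.conj (Matrix.toLin' ((𝒩.data f).rho l g)) = Matrix.toLin' ((𝒩.data f).rho τ g) := by
      refine LinearMap.ext fun w => ?_
      obtain ⟨w', rfl⟩ := e.surjective w
      rw [LinearEquiv.conj_apply_apply, LinearEquiv.symm_apply_apply, Matrix.toLin'_apply,
        Matrix.toLin'_apply]
      exact hj g w'
    rw [← Matrix.trace_toLin'_eq, ← Matrix.trace_toLin'_eq, ← h1, LinearMap.trace_conj']
  have h2 := (𝒩.good f).generate ((𝒩.data f).bad) (𝒩.good f).bad_finite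
  refine AlgHom.ext fun x => ?_
  have hx : x ∈ Algebra.adjoin ℚ ((𝒩.data f).eigenvalue '' ((𝒩.data f).bad)ᶜ) := by
    rw [h2]
    trivial
  induction hx using Algebra.adjoin_induction with
  | mem y hy =>
    obtain ⟨v, hv, rfl⟩ := hy
    obtain ⟨g, hg⟩ := F.frob_nonempty v
    rw [← ((𝒩.good f).trace_frob τ v hv g hg).1, ← ((𝒩.good f).trace_frob l v hv g hg).1, htr]
  | algebraMap q => rw [AlgHom.commutes, AlgHom.commutes]
  | add y z _ _ hy hz => rw [map_add, map_add, hy, hz]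
  | mul y z _ _ hy hz => rw [map_mul, map_mul, hy, hz]

/-- The Galois representations of the conjugates of `f` occur in `A_f`. -/
theorem occurs_of_hasAV {H : Subgroup 𝔾} (hH : IsField H) (f : 𝒩.Form H) (h : HasAV 𝒜 𝒩 f)
    (l : (𝒩.data f).E →ₐ[ℚ] K) : ∃ (A : 𝒜.Simple H) (j : (Fin 2 → K) →ₗ[K] (𝒜.tate A).V K),
      j ≠ 0 ∧ ∀ g w, j (((𝒩.data f).rho l g).mulVec w) = (𝒜.tate A).rho g (j w) := by
  classical
  obtain ⟨A, S, hS, hA⟩ := h
  refine ⟨A, exists_emb (𝒜.tate A).rho (𝒜.faltings A).semisimple (T := (𝒩.data f).E →ₐ[ℚ] K)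
    (𝒩.data f).rho (𝒩.good f).irreducible l (fun τ hτ j hj => ?_) ?_⟩
  · by_contra h0
    exact hτ (conj_eq f l τ j h0 hj)
  · change ∀ g : H, (𝒜.tate A).tr ((𝒜.tate A).rho g) = ∑ τ, ((𝒩.data f).rho τ g).trace
    refine eq_of_frob hH.1 (S := S ∪ (𝒩.data f).bad) (hS.union (𝒩.good f).bad_finite) ?_ ?_ ?_
    · have h1 := 𝒜.continuous A 1
      simpa only [mul_one] using h1
    · exact continuous_finsetSum _ fun τ _ => (𝒩.good f).continuous τ
    · intro v hv g hg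
      have h1 := hA v (fun h => hv (Or.inl h)) g hg 1
      rw [pow_one] at h1
      rw [h1]
      change ((Algebra.trace ℚ ((𝒩.data f).E) ((𝒩.data f).eigenvalue v) : ℚ) : K) = _
      have h2 := trace_eq_sum_embeddings (K := ℚ) (L := (𝒩.data f).E) K (x := (𝒩.data f).eigenvalue v)
      rw [eq_ratCast] at h2
      rw [h2]
      refine Finset.sum_congr rfl fun τ _ => ?_
      rw [((𝒩.good f).trace_frob τ v (fun h => hv (Or.inr h)) g hg).1]

theorem hasAV_iff {H : Subgroup 𝔾} (hH : IsField H) (hc : F.conj ∈ H) (f : 𝒩.Form H) :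
    HasAV 𝒜 𝒩 f ↔ ∃ (H' : Subgroup 𝔾) (hle : H' ≤ H) (_ : IsField H') (B : 𝒜.Simple H'),
      Occurs 𝒜 𝒩 hle f B := by
  constructor
  · intro h
    obtain ⟨l⟩ : Nonempty ((𝒩.data f).E →ₐ[ℚ] K) := ⟨IsAlgClosed.lift⟩
    obtain ⟨A, j, hj0, hj⟩ := occurs_of_hasAV hH f h l
    exact ⟨H, le_rfl, hH, A, l, j, hj0, fun g w => hj g w⟩
  · rintro ⟨H', hle, hH', B, h⟩
    exact hasAV_of_occurs hle hH hH' hc f B h

/-- Newforms with isomorphic Galois representations over a finite extension. -/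
theorem hasAV_of_iso {H₁ H₂ H' : Subgroup 𝔾} (h₁ : H' ≤ H₁) (h₂ : H' ≤ H₂) (hH₁ : IsField H₁)
    (hH₂ : IsField H₂) (hH' : IsField H') (hc : F.conj ∈ H₁) (f₁ : 𝒩.Form H₁) (f₂ : 𝒩.Form H₂)
    (h : Isomorphic 𝒩 h₁ h₂ f₁ f₂) (hA : HasAV 𝒜 𝒩 f₂) : HasAV 𝒜 𝒩 f₁ := by
  obtain ⟨τ₁, τ₂, P, hP, hPg⟩ := h
  obtain ⟨A, j, hj0, hj⟩ := occurs_of_hasAV hH₂ f₂ hA τ₂
  obtain ⟨n, B, e, he', he⟩ := 𝒜.extend h₂ hH₂ hH' A
  have h0 : ∃ w i, e i (j w) ≠ 0 := by
    by_contra hno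
    push Not at hno
    exact hj0 (LinearMap.ext fun w => he _ (hno w))
  obtain ⟨w0, i, hi⟩ := h0
  refine hasAV_of_occurs h₁ hH₁ hH' hc f₁ (B i) ⟨τ₁,
    e i ∘ₗ j ∘ₗ Matrix.toLin' P, fun h1 => ?_, fun g w => ?_⟩
  · obtain ⟨P', hP'⟩ := hP.exists_right_inv
    have h2 := LinearMap.congr_fun h1 (P'.mulVec w0)
    refine hi ?_
    have h3 : Matrix.toLin' P (P'.mulVec w0) = w0 := by
      rw [Matrix.toLin'_apply, Matrix.mulVec_mulVec, hP', Matrix.one_mulVec]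
    change e i (j (Matrix.toLin' P (P'.mulVec w0))) = 0 at h2
    rw [h3] at h2
    exact h2
  · change e i (j (Matrix.toLin' P (((𝒩.data f₁).rho τ₁ ⟨g, h₁ g.2⟩).mulVec w))) =
      (𝒜.tate (B i)).rho g (e i (j (Matrix.toLin' P w)))
    rw [Matrix.toLin'_apply, Matrix.mulVec_mulVec, hPg, ← Matrix.mulVec_mulVec, hj, he' i,
      Matrix.toLin'_apply]

theorem iso_symm {H₁ H₂ H' : Subgroup 𝔾} (h₁ : H' ≤ H₁) (h₂ : H' ≤ H₂) (f₁ : 𝒩.Form H₁)
    (f₂ : 𝒩.Form H₂) (h : Isomorphic 𝒩 h₁ h₂ f₁ f₂) : Isomorphic 𝒩 h₂ h₁ f₂ f₁ := by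
  obtain ⟨τ₁, τ₂, P, hP, hPg⟩ := h
  obtain ⟨P', hP', hP''⟩ := isUnit_iff_exists.1 hP
  refine ⟨τ₂, τ₁, P', ⟨⟨P', P, hP'', hP'⟩, rfl⟩, fun g => ?_⟩
  have h1 := hPg g
  calc P' * (𝒩.data f₂).rho τ₂ ⟨g, h₂ g.2⟩ = P' * ((𝒩.data f₂).rho τ₂ ⟨g, h₂ g.2⟩ * P) * P' := by
        rw [mul_assoc, mul_assoc, hP', mul_one]
    _ = (𝒩.data f₁).rho τ₁ ⟨g, h₁ g.2⟩ * P' := by
        rw [← h1, ← mul_assoc P', hP'', one_mul]

/-- Level one suffices. -/
theorem level_one (hZ : ZhangTheorem 𝒜 𝒩) (hB : BaseChange 𝒩) :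
    LevelOneQuestion 𝒜 𝒩 ↔ Question 𝒜 𝒩 := by
  constructor
  · intro h H hH hr hev f _
    have hc : ∀ {H : Subgroup 𝔾}, TotallyReal F H → F.conj ∈ H := fun {H} hr => by
      have h1 := hr 1
      rwa [one_mul, inv_one, mul_one] at h1
    obtain ⟨H', hle, hH', hr', f', hf', hiso⟩ := hB H hH hr f
    refine hasAV_of_iso hle le_rfl hH hH' hH' (hc hr) f f' hiso ?_
    rcases hf' with h1 | ⟨v, h1⟩
    · refine h H' hH' hr' ?_ f' h1
      rw [← Subgroup.relIndex_mul_index hle]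
      exact hev.mul_left _
    · exact hZ H' hH' hr' f' (Or.inr ⟨v, by rw [h1]; exact odd_one⟩)
  · intro h H hH hr hev f hf
    exact h H hH hr hev f fun v => by rw [hf v]; exact Even.zero

end Run7.h43.ES
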