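import Pool.Agent.Run7.h43.ES.Main

/-!
# The endomorphism algebra is the field of the traces
-/

set_option autoImplicit false
set_option linter.unusedSectionVars false
set_option linter.style.haveILetI false

open TensorProduct Module

namespace Run7.h43.ES

/-- The sum `α ^ n + β ^ n` for the roots of `X ^ 2 - a X + N`. -/
def powerSum {R : Type*} [CommRing R] (a N : R) : ℕ → R
  | 0 => 2
  | 1 => a
  | (n + 2) => a * powerSum a N (n + 1) - N * powerSum a N n

theorem map_powerSum {R S : Type*} [CommRing R] [CommRing S] (f : R →+* S) (a N : R) (n : ℕ) :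
    f (powerSum a N n) = powerSum (f a) (f N) n := by
  induction n using Nat.strong_induction_on with
  | _ n ih =>
    match n with
    | 0 => exact map_ofNat f 2
    | 1 => rfl
    | (n + 2) =>
      change f (a * powerSum a N (n + 1) - N * powerSum a N n) =
        f a * powerSum (f a) (f N) (n + 1) - f N * powerSum (f a) (f N) n
      rw [map_sub, map_mul, map_mul, ih (n + 1) (by omega), ih n (by omega)]

theorem trace_pow {K : Type*} [Field K] (A : Matrix (Fin 2) (Fin 2) K) (n : ℕ) :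
    (A ^ n).trace = powerSum A.trace A.det n := by
  induction n using Nat.strong_induction_on with
  | _ n ih =>
    match n with
    | 0 =>
      rw [pow_zero, Matrix.trace_one]
      rfl
    | 1 =>
      rw [pow_one]
      rfl
    | (n + 2) =>
      have h1 : A ^ 2 = A.trace • A - A.det • (1 : Matrix (Fin 2) (Fin 2) K) := by
        ext i k
        fin_cases i <;> fin_cases k <;>
          simp [pow_two, Matrix.mul_apply, Fin.sum_univ_two, Matrix.trace_fin_two,
            Matrix.det_fin_two] <;> ring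
      change _ = A.trace * powerSum A.trace A.det (n + 1) - A.det * powerSum A.trace A.det n
      rw [← ih (n + 1) (by omega), ← ih n (by omega), pow_add, h1, mul_sub, Matrix.trace_sub,
        mul_smul_comm, mul_smul_comm, mul_one, Matrix.trace_smul, Matrix.trace_smul, smul_eq_mul,
        smul_eq_mul, pow_succ]

variable {K : Type*} [Field K] [CharZero K]
variable {D : Type*} [DivisionRing D] [Algebra ℚ D] [FiniteDimensional ℚ D]
variable {M : Type*} [AddCommGroup M] [Module ℚ M] [Module D M] [IsScalarTower ℚ D M]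
  [FiniteDimensional ℚ M]
variable {G : Type*} [Group G]

/-- The character of `D` on the line. -/
theorem exists_chi {x : K ⊗[ℚ] D} (hx1 : tB K D x = 1) (hxy : ∀ y, ∃ a : K, x * y = a • x) :
    ∃ χ : D →+* K, ∀ d, tB K D (x * (1 ⊗ₜ d)) = χ d := by
  have hx0 : x ≠ 0 := fun h0 => by
    rw [h0, map_zero] at hx1
    exact zero_ne_one hx1
  have h1 : ∀ y, x * y = tB K D (x * y) • x := by
    intro y
    obtain ⟨a, ha⟩ := hxy y
    rw [ha, map_smul, hx1, smul_eq_mul, mul_one]
  have h2 : ∀ a b : K, a • x = b • x → a = b := fun a b hab => by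
    have h3 : (a - b) • x = 0 := by rw [sub_smul, hab, sub_self]
    exact sub_eq_zero.1 ((smul_eq_zero.1 h3).resolve_right hx0)
  refine ⟨{ toFun := fun d => tB K D (x * (1 ⊗ₜ d))
            map_one' := ?_
            map_mul' := fun d e => h2 _ _ ?_
            map_zero' := ?_
            map_add' := fun d e => ?_ }, fun d => rfl⟩
  · rw [← Algebra.TensorProduct.one_def, mul_one, hx1]
  · rw [← h1]
    have h3 : (1 : K) ⊗ₜ[ℚ] (d * e) = (1 ⊗ₜ d) * (1 ⊗ₜ e) := by
      rw [Algebra.TensorProduct.tmul_mul_tmul, one_mul]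
    rw [h3, ← mul_assoc]
    conv_lhs => rw [h1 (1 ⊗ₜ d), smul_mul_assoc, h1 (1 ⊗ₜ e), smul_smul]
  · change tB K D (x * (1 ⊗ₜ 0)) = 0
    rw [TensorProduct.tmul_zero, mul_zero, map_zero]
  · change tB K D (x * (1 ⊗ₜ (d + e))) = tB K D (x * (1 ⊗ₜ d)) + tB K D (x * (1 ⊗ₜ e))
    rw [TensorProduct.tmul_add, mul_add, map_add]

theorem mul_comm_of_chi (χ : D →+* K) (a b : D) : a * b = b * a :=
  χ.injective (by rw [map_mul, map_mul, mul_comm])

theorem comm_tensor (hD : ∀ a b : D, a * b = b * a) (y z : K ⊗[ℚ] D) : y * z = z * y := by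
  induction y using TensorProduct.induction_on with
  | zero => rw [zero_mul, mul_zero]
  | tmul k d =>
    induction z using TensorProduct.induction_on with
    | zero => rw [zero_mul, mul_zero]
    | tmul l e =>
      rw [Algebra.TensorProduct.tmul_mul_tmul, Algebra.TensorProduct.tmul_mul_tmul, mul_comm k,
        hD d]
    | add a b ha hb => rw [mul_add, add_mul, ha, hb]
  | add a b ha hb => rw [mul_add, add_mul, ha, hb]

/-- The element of `D` which gives the rational traces. -/
theorem exists_t {T : Module.End K (K ⊗[ℚ] M)}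
    (hT : ∀ d : D, ∃ q : ℚ, LinearMap.trace K _ (T * (Algebra.lsmul ℚ ℚ M d).baseChange K) = q) :
    ∃ t : D, ∀ y, LinearMap.trace K _ (T * actK K D M y) = tB K D ((1 ⊗ₜ t) * y) := by
  choose q hq using hT
  let F : D →ₗ[ℚ] ℚ :=
    { toFun := q
      map_add' := fun a b => by
        have h1 : ((q (a + b) : ℚ) : K) = ((q a + q b : ℚ) : K) := by
          rw [← hq, Rat.cast_add, ← hq, ← hq, map_add, LinearMap.baseChange_add, mul_add, map_add]
        exact_mod_cast h1
      map_smul' := fun s a => by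
        have h1 : ((q (s • a) : ℚ) : K) = ((s * q a : ℚ) : K) := by
          rw [← hq, Rat.cast_mul, ← hq, map_smul, LinearMap.baseChange_smul, mul_smul_comm,
            ← algebraMap_smul K s, map_smul, smul_eq_mul]
          rfl
        exact_mod_cast h1 }
  obtain ⟨t, ht⟩ := exists_rep F
  refine ⟨t, fun y => ?_⟩
  have h := ext_tmul (K := K) (D := D)
    (f := LinearMap.trace K (K ⊗[ℚ] M) ∘ₗ LinearMap.mulLeft K T ∘ₗ (actK K D M).toLinearMap)
    (g := tB K D ∘ₗ LinearMap.mulLeft K ((1 : K) ⊗ₜ[ℚ] t)) (fun d => by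
    change LinearMap.trace K (K ⊗[ℚ] M) (T * actK K D M (1 ⊗ₜ d)) =
      tB K D ((1 ⊗ₜ t) * (1 ⊗ₜ d))
    rw [actK_tmul, one_smul, hq, Algebra.TensorProduct.tmul_mul_tmul, one_mul, tB_tmul, one_mul,
      ← ht]
    rfl)
  exact LinearMap.congr_fun h y

/-- The elements `t` for a dense set of group elements generate `D`. -/
theorem top_of_dense {ρ : G →* Module.End K (K ⊗[ℚ] M)} (h : IsTate D ρ)
    (hD : ∀ a b : D, a * b = b * a) (hM : finrank ℚ M = 2 * finrank ℚ D) {Fr : Set G}
    (hden : ∀ y, (∀ g ∈ Fr, LinearMap.trace K _ (ρ g * actK K D M y) = 0) →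
      ∀ g, LinearMap.trace K _ (ρ g * actK K D M y) = 0) {U : Submodule ℚ D}
    (hU : ∀ g ∈ Fr, ∃ t ∈ U, ∀ y, LinearMap.trace K _ (ρ g * actK K D M y) =
      tB K D ((1 ⊗ₜ t) * y)) : U = ⊤ := by
  by_contra hne
  obtain ⟨d, hd, hdU⟩ := exists_orth hne
  have h1 : ∀ g, LinearMap.trace K _ (ρ g * actK K D M (1 ⊗ₜ d)) = 0 := by
    refine hden _ fun g hg => ?_
    obtain ⟨t, ht, h2⟩ := hU g hg
    rw [h2, Algebra.TensorProduct.tmul_mul_tmul, one_mul, tB_tmul, hdU t ht, Rat.cast_zero,
      mul_zero]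
  have h2 : ∀ z : K ⊗[ℚ] D, LinearMap.trace K _ (actK K D M z * actK K D M (1 ⊗ₜ d)) = 0 := by
    intro z
    have h3 : actK K D M z ∈ Algebra.adjoin K (Set.range ρ) := by
      refine double_comm (Set.range ρ) (fun V hV => ?_) (fun P hP => ?_)
      · obtain ⟨V', h4, h5⟩ := h.semisimple V fun g u hu => hV _ ⟨g, rfl⟩ u hu
        exact ⟨V', by
          rintro _ ⟨g, rfl⟩ u hu
          exact h4 g u hu, h5⟩
      · obtain ⟨y, hy⟩ := h.exists_actK fun g => hP _ ⟨g, rfl⟩
        rw [← hy, ← map_mul, ← map_mul, comm_tensor hD]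
    exact zero_of_group ρ (LinearMap.trace K _ ∘ₗ LinearMap.mulRight K (actK K D M (1 ⊗ₜ d)))
      h1 h3
  have h3 : (1 : K) ⊗ₜ[ℚ] d = 0 := by
    refine tB_nondeg fun z => ?_
    haveI : Module.Finite D M := Module.Finite.of_restrictScalars_finite ℚ D M
    have h5 : ∀ d : D, LinearMap.trace ℚ M (Algebra.lsmul ℚ ℚ M d * (1 : Module.End ℚ M)) =
        (finrank D M : ℚ) * tau D d := fun d => by rw [mul_one, trace_module]
    have h6 := trace_actK (K := K) h5 (z * (1 ⊗ₜ d))
    rw [LinearMap.baseChange_one, mul_one, map_mul, h2] at h6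
    have h7 : finrank D M = 2 := by
      have h8 := Module.finrank_mul_finrank ℚ D M
      rw [hM, mul_comm] at h8
      have h9 : 0 < finrank ℚ D := finrank_pos
      exact Nat.eq_of_mul_eq_mul_right h9 h8
    rw [h7] at h6
    rcases mul_eq_zero.1 h6.symm with h8 | h8
    · exact absurd h8 (by norm_num)
    · exact h8
  exact tmul_ne_zero hd h3

variable {E : Type*} [Field E] [Algebra ℚ E] [FiniteDimensional ℚ E]

/-- **The field of the traces.** -/
theorem field_of_traces {ρ : G →* Module.End K (K ⊗[ℚ] M)} (h : IsTate D ρ) {c : G}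
    (hc : c * c = 1) {φ : Module.End ℚ M} (hφ : ρ c = φ.baseChange K)
    {r : G →* Matrix (Fin 2) (Fin 2) K} (htr : (r c).trace = 0)
    {j : (Fin 2 → K) →ₗ[K] K ⊗[ℚ] M} (hj : Function.Injective j)
    (hjr : ∀ g w, j ((r g).mulVec w) = ρ g (j w)) {Pl : Type*} {good : Set Pl} {Fr : Pl → Set G}
    (lam : E →+* K) {a : Pl → E} {N : Pl → ℕ} (hgen : Algebra.adjoin ℚ (a '' good) = ⊤)
    (hFr : ∀ v ∈ good, (Fr v).Nonempty)
    (ha : ∀ v ∈ good, ∀ g ∈ Fr v, (r g).trace = lam (a v))
    (hN : ∀ v ∈ good, ∀ g ∈ Fr v, (r g).det = N v)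
    (hrat : ∀ v ∈ good, ∀ g ∈ Fr v, ∀ (n : ℕ) (d : D), ∃ q : ℚ,
      LinearMap.trace K _ (ρ g ^ n * (Algebra.lsmul ℚ ℚ M d).baseChange K) = q)
    (hden : ∀ y : Module.End K (K ⊗[ℚ] M),
      (∀ v ∈ good, ∀ g ∈ Fr v, LinearMap.trace K _ (ρ g * y) = 0) →
      ∀ g, LinearMap.trace K _ (ρ g * y) = 0) :
    Nonempty (E ≃+* D) ∧ finrank ℚ M = 2 * finrank ℚ E ∧
    ∀ v ∈ good, ∀ g ∈ Fr v, ∀ n : ℕ, LinearMap.trace K _ (ρ g ^ n) =
      ((Algebra.trace ℚ E (powerSum (a v) (N v : E) n) : ℚ) : K) := by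
  classical
  let r' : G →* Module.End K (Fin 2 → K) :=
    (Matrix.toLinAlgEquiv' : Matrix (Fin 2) (Fin 2) K ≃ₐ[K] _).toAlgHom.toRingHom.toMonoidHom.comp r
  have hr' : ∀ g w, r' g w = (r g).mulVec w := fun g w => Matrix.toLinAlgEquiv'_apply _ _
  have hr't : ∀ A : Matrix (Fin 2) (Fin 2) K,
      LinearMap.trace K (Fin 2 → K) (Matrix.toLin' A) = A.trace := fun A =>
    Matrix.trace_toLin'_eq A
  obtain ⟨x, hx1, hxy, hxT, hM⟩ := core h hc hφ (r := r') (by simp)
    (by
      change LinearMap.trace K (Fin 2 → K) (Matrix.toLin' (r c)) = 0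
      rw [hr't, htr]) hj (fun g w => by rw [hr', hjr])
  obtain ⟨χ, hχ⟩ := exists_chi hx1 hxy
  have hD := mul_comm_of_chi χ
  -- the elements with the traces
  have h1 : ∀ v ∈ good, ∀ g ∈ Fr v, ∀ n : ℕ, ∃ t : D,
      (∀ y, LinearMap.trace K _ (ρ g ^ n * actK K D M y) = tB K D ((1 ⊗ₜ t) * y)) ∧
      χ t = lam (powerSum (a v) (N v : E) n) := by
    intro v hv g hg n
    obtain ⟨t, ht⟩ := exists_t (hrat v hv g hg n)
    refine ⟨t, ht, ?_⟩
    rw [← hχ, comm_tensor hD, ← ht, map_powerSum, ← ha v hv g hg, map_natCast, ← hN v hv g hg,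
      ← trace_pow, ← hr't]
    refine hxT _ _ fun w => ?_
    rw [Matrix.toLin'_apply]
    clear ht
    induction n with
    | zero => rw [pow_zero, pow_zero, Matrix.one_mulVec, Module.End.one_apply]
    | succ n ih =>
      rw [pow_succ', pow_succ', Module.End.mul_apply, ih, ← hjr, Matrix.mulVec_mulVec]
  -- the embedding of the field
  have h2 : ∀ e : E, ∃ d : D, χ d = lam e := by
    intro e
    have h3 : e ∈ Algebra.adjoin ℚ (a '' good) := by
      rw [hgen]
      trivial
    induction h3 using Algebra.adjoin_induction with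
    | mem y hy =>
      obtain ⟨v, hv, rfl⟩ := hy
      obtain ⟨g, hg⟩ := hFr v hv
      obtain ⟨t, -, ht⟩ := h1 v hv g hg 1
      exact ⟨t, ht⟩
    | algebraMap q =>
      exact ⟨algebraMap ℚ D q, by
        rw [← RingHom.comp_apply, ← RingHom.comp_apply]
        exact congrArg (fun f : ℚ →+* K => f q) (Subsingleton.elim _ _)⟩
    | add y z _ _ hy hz =>
      obtain ⟨d, hd⟩ := hy
      obtain ⟨d', hd'⟩ := hz
      exact ⟨d + d', by rw [map_add, map_add, hd, hd']⟩
    | mul y z _ _ hy hz =>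
      obtain ⟨d, hd⟩ := hy
      obtain ⟨d', hd'⟩ := hz
      exact ⟨d * d', by rw [map_mul, map_mul, hd, hd']⟩
  choose ι hι using h2
  let i : E →+* D :=
    { toFun := ι
      map_one' := χ.injective (by rw [hι, map_one, map_one])
      map_mul' := fun y z => χ.injective (by rw [hι, map_mul, map_mul, hι, hι])
      map_zero' := χ.injective (by rw [hι, map_zero, map_zero])
      map_add' := fun y z => χ.injective (by rw [hι, map_add, map_add, hι, hι]) }
  have hi : ∀ e, χ (i e) = lam e := hι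
  have hiℚ : ∀ (q : ℚ) (e : E), i (q • e) = q • i e := by
    intro q e
    rw [Algebra.smul_def, Algebra.smul_def, map_mul]
    congr 1
    rw [← RingHom.comp_apply]
    exact congrArg (fun f : ℚ →+* D => f q) (Subsingleton.elim _ _)
  let iL : E →ₗ[ℚ] D := { toFun := i, map_add' := map_add i, map_smul' := hiℚ }
  have hsurj : LinearMap.range iL = ⊤ := by
    refine top_of_dense h hD hM (Fr := {g | ∃ v ∈ good, g ∈ Fr v})
      (fun y hy => hden _ fun v hv g hg => hy g ⟨v, hv, hg⟩) ?_
    rintro g ⟨v, hv, hg⟩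
    obtain ⟨t, ht, ht'⟩ := h1 v hv g hg 1
    refine ⟨t, ⟨powerSum (a v) (N v : E) 1, χ.injective ?_⟩, fun y => ?_⟩
    · exact (hi _).trans ht'.symm
    · rw [← ht, pow_one]
  have hs : Function.Surjective i := fun d => by
    have h3 : d ∈ LinearMap.range iL := by
      rw [hsurj]
      trivial
    exact h3
  let e : E ≃+* D := RingEquiv.ofBijective i ⟨i.injective, hs⟩
  let eL : E ≃ₗ[ℚ] D := LinearEquiv.ofBijective iL ⟨i.injective, hs⟩
  have hfr : finrank ℚ E = finrank ℚ D := eL.finrank_eq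
  refine ⟨⟨e⟩, by rw [hM, hfr], fun v hv g hg n => ?_⟩
  obtain ⟨t, ht, ht'⟩ := h1 v hv g hg n
  have h3 : t = i (powerSum (a v) (N v : E) n) := χ.injective (by rw [ht', hi])
  have h4 := ht 1
  rw [map_one, mul_one, mul_one, tB_tmul, one_mul] at h4
  rw [h4, h3]
  congr 1
  have h5 : ∀ s : E, tau D (i s) = Algebra.trace ℚ E s := by
    intro s
    have h6 : LinearMap.mulLeft ℚ (i s) = eL.conj (LinearMap.mulLeft ℚ s) := by
      refine LinearMap.ext fun d => ?_
      obtain ⟨e', rfl⟩ := hs d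
      rw [LinearEquiv.conj_apply_apply]
      have h7 : eL.symm (i e') = e' := eL.symm_apply_apply e'
      rw [h7]
      change i s * i e' = i (s * e')
      rw [map_mul]
    rw [tau_apply, h6, LinearMap.trace_conj']
    rfl
  exact h5 _

end Run7.h43.ES
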