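import Mathlib

/-!
# Linear algebra: endomorphism algebras of semisimple representations with a rational structure
-/

set_option autoImplicit false
set_option linter.unusedSectionVars false
set_option linter.style.haveILetI false

open TensorProduct Module

namespace Run7.h43.ES

/-! ### The double commutant theorem -/

section Double

variable {k W : Type*} [Field k] [AddCommGroup W] [Module k W] [FiniteDimensional k W]

/-- The double commutant theorem. -/
theorem double_comm (S : Set (Module.End k W))
    (hss : ∀ U : Submodule k W, (∀ X ∈ S, ∀ u ∈ U, X u ∈ U) →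
      ∃ U' : Submodule k W, (∀ X ∈ S, ∀ u ∈ U', X u ∈ U') ∧ IsCompl U U') {Z : Module.End k W}
    (hZ : ∀ P : Module.End k W, (∀ X ∈ S, X * P = P * X) → Z * P = P * Z) :
    Z ∈ Algebra.adjoin k S := by
  classical
  set R : Subalgebra k (Module.End k W) := Algebra.adjoin k S with hR
  have hsm : ∀ (r : R) (w : W), r • w = r.1 w := fun r w => rfl
  have hsemi : IsSemisimpleModule R W := by
    refine { exists_isCompl := fun U => ?_ }
    obtain ⟨U', hU', hc⟩ := hss (U.restrictScalars k) (fun X hX u hu => by
      have h1 : (⟨X, Algebra.subset_adjoin hX⟩ : R) • u ∈ U := U.smul_mem _ hu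
      exact h1)
    have hstab : ∀ r ∈ R, ∀ u ∈ U', r u ∈ U' := by
      intro r hr
      induction hr using Algebra.adjoin_induction with
      | mem x hx => exact fun u hu => hU' x hx u hu
      | algebraMap c =>
        intro u hu
        rw [Module.algebraMap_end_apply]
        exact U'.smul_mem c hu
      | add x y _ _ hx hy => exact fun u hu => U'.add_mem (hx u hu) (hy u hu)
      | mul x y _ _ hx hy => exact fun u hu => hx _ (hy u hu)
    let V' : Submodule R W :=
      { carrier := U'
        zero_mem' := U'.zero_mem
        add_mem' := U'.add_mem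
        smul_mem' := fun r u hu => hstab r.1 r.2 u hu }
    refine ⟨V', ?_, ?_⟩
    · rw [disjoint_iff_inf_le]
      intro x hx
      have h1 : x ∈ (U.restrictScalars k) ⊓ U' := ⟨hx.1, hx.2⟩
      rw [hc.inf_eq_bot] at h1
      exact h1
    · rw [codisjoint_iff_le_sup]
      intro x _
      have h1 : x ∈ (U.restrictScalars k) ⊔ U' := by rw [hc.sup_eq_top]; trivial
      obtain ⟨y, hy, z, hz, rfl⟩ := Submodule.mem_sup.1 h1
      exact Submodule.mem_sup.2 ⟨y, hy, z, hz, rfl⟩
  let f : Module.End (Module.End R W) W :=
    { toFun := fun w => Z w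
      map_add' := map_add Z
      map_smul' := by
        intro P w
        let P' : Module.End k W :=
          { toFun := fun w => P w
            map_add' := map_add P
            map_smul' := fun c w => by
              have h1 : c • w = (algebraMap k R c) • w := by
                rw [hsm]
                rfl
              have h2 : c • P w = (algebraMap k R c) • P w := by
                rw [hsm]
                rfl
              rw [h1, map_smul, RingHom.id_apply, h2] }
        have h1 := hZ P' (fun X hX => by
          ext w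
          have h2 : X w = (⟨X, Algebra.subset_adjoin hX⟩ : R) • w := rfl
          have h3 : X (P w) = (⟨X, Algebra.subset_adjoin hX⟩ : R) • P w := rfl
          change X (P w) = P (X w)
          rw [h2, h3, map_smul])
        have h2 := congrArg (fun T : Module.End k W => T w) h1
        exact h2 }
  obtain ⟨r, hr⟩ := jacobson_density (R := R) f
    (Finset.univ.image (Module.finBasis k W))
  have h1 : Z = r.1 := by
    refine (Module.finBasis k W).ext fun i => ?_
    have h2 := hr (Module.finBasis k W i) (Finset.mem_image_of_mem _ (Finset.mem_univ i))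
    exact h2
  rw [h1]
  exact r.2

/-- A linear functional which vanishes on the elements of a group vanishes on the algebra. -/
theorem zero_of_group {G : Type*} [Group G] (ρ : G →* Module.End k W)
    (f : Module.End k W →ₗ[k] k) (hf : ∀ g, f (ρ g) = 0) {Z : Module.End k W}
    (hZ : Z ∈ Algebra.adjoin k (Set.range ρ)) : f Z = 0 := by
  have h1 : Z ∈ Submodule.span k (Set.range ρ) := by
    have h2 : Z ∈ Subalgebra.toSubmodule (Algebra.adjoin k (Set.range ρ)) := hZ
    rw [Algebra.adjoin_eq_span] at h2
    have h3 : (Submonoid.closure (Set.range ρ) : Set (Module.End k W)) = Set.range ρ := by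
      have h4 := MonoidHom.coe_mrange ρ
      rw [← h4, Submonoid.closure_eq]
    rwa [h3] at h2
  clear hZ
  induction h1 using Submodule.span_induction with
  | mem x hx =>
    obtain ⟨g, rfl⟩ := hx
    exact hf g
  | zero => exact map_zero f
  | add x y _ _ hx hy => rw [map_add, hx, hy, add_zero]
  | smul c x _ hx => rw [map_smul, hx, smul_zero]

end Double

/-! ### Traces of elements of a division algebra -/

section Div

variable {D : Type*} [DivisionRing D] [Algebra ℚ D] [FiniteDimensional ℚ D]

variable (D) in
/-- The trace of the left multiplication. -/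
noncomputable def tau : D →ₗ[ℚ] ℚ := LinearMap.trace ℚ D ∘ₗ LinearMap.mul ℚ D

theorem tau_apply (d : D) : tau D d = LinearMap.trace ℚ D (LinearMap.mulLeft ℚ d) := rfl

theorem tau_one : tau D 1 = finrank ℚ D := by
  rw [tau_apply, LinearMap.mulLeft_one, LinearMap.trace_id]

theorem tau_comm (a b : D) : tau D (a * b) = tau D (b * a) := by
  rw [tau_apply, tau_apply, LinearMap.mulLeft_mul, LinearMap.mulLeft_mul]
  exact LinearMap.trace_mul_comm ℚ (LinearMap.mulLeft ℚ a) (LinearMap.mulLeft ℚ b)

theorem finrank_ne_zero : (finrank ℚ D : ℚ) ≠ 0 := by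
  have h : 0 < finrank ℚ D := finrank_pos
  exact_mod_cast h.ne'

theorem tau_inv {d : D} (hd : d ≠ 0) : tau D (d * d⁻¹) ≠ 0 := by
  rw [mul_inv_cancel₀ hd, tau_one]
  exact finrank_ne_zero

/-- Every functional is of the form `d ↦ tr (t d)`. -/
theorem exists_rep (q : D →ₗ[ℚ] ℚ) : ∃ t : D, ∀ d, q d = tau D (t * d) := by
  let F : D →ₗ[ℚ] Module.Dual ℚ D := (LinearMap.mul ℚ D).compr₂ (tau D)
  have hF : ∀ t d, F t d = tau D (t * d) := fun _ _ => rfl
  have hinj : Function.Injective F := by
    rw [← LinearMap.ker_eq_bot, Submodule.eq_bot_iff]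
    intro t ht
    by_contra h0
    refine tau_inv h0 ?_
    rw [← hF, LinearMap.mem_ker.1 ht, LinearMap.zero_apply]
  have hsurj : Function.Surjective F :=
    (LinearMap.injective_iff_surjective_of_finrank_eq_finrank
      (Subspace.dual_finrank_eq (K := ℚ) (V := D)).symm).1 hinj
  obtain ⟨t, ht⟩ := hsurj q
  exact ⟨t, fun d => by rw [← hF, ht]⟩

/-- A proper subspace is orthogonal to a nonzero element. -/
theorem exists_orth {U : Submodule ℚ D} (hU : U ≠ ⊤) : ∃ d : D, d ≠ 0 ∧ ∀ u ∈ U, tau D (u * d) = 0 := by
  obtain ⟨q, hq, hqU⟩ := Submodule.exists_dual_map_eq_bot_of_lt_top (lt_top_iff_ne_top.2 hU) inferInstance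
  obtain ⟨t, ht⟩ := exists_rep q
  refine ⟨t, fun h0 => hq (LinearMap.ext fun d => ?_), fun u hu => ?_⟩
  · rw [ht, h0, zero_mul, map_zero, LinearMap.zero_apply]
  · rw [tau_comm, ← ht]
    have h1 : q u ∈ U.map q := Submodule.mem_map_of_mem hu
    rwa [hqU, Submodule.mem_bot] at h1

/-- The trace of an element of `D` on a `D`-module. -/
theorem trace_module {N : Type*} [AddCommGroup N] [Module ℚ N] [Module D N] [IsScalarTower ℚ D N]
    [FiniteDimensional ℚ N] (d : D) :
    LinearMap.trace ℚ N (Algebra.lsmul ℚ ℚ N d) = (finrank D N : ℚ) * tau D d := by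
  classical
  haveI : Module.Finite D N := Module.Finite.of_restrictScalars_finite ℚ D N
  let b := Module.finBasis D N
  let e := Module.finBasis ℚ D
  rw [LinearMap.trace_eq_matrix_trace ℚ (e.smulTower b), tau_apply,
    LinearMap.trace_eq_matrix_trace ℚ e]
  simp only [Matrix.trace, Matrix.diag_apply, LinearMap.toMatrix_apply]
  rw [Fintype.sum_prod_type, Finset.sum_comm]
  have h1 : ∀ (j : Fin (finrank D N)) (i : Fin (finrank ℚ D)),
      ((e.smulTower b).repr ((Algebra.lsmul ℚ ℚ N d) ((e.smulTower b) (i, j)))) (i, j) =
        (e.repr ((LinearMap.mulLeft ℚ d) (e i))) i := by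
    intro j i
    rw [Module.Basis.smulTower_repr, Module.Basis.smulTower_apply]
    simp only [Algebra.lsmul_coe, smul_smul, map_smul, Module.Basis.repr_self, LinearMap.mulLeft_apply,
      Finsupp.smul_apply, Finsupp.single_eq_same, smul_eq_mul, mul_one]
  rw [Finset.sum_congr rfl fun j _ => Finset.sum_congr rfl fun i _ => h1 j i, Finset.sum_const,
    Finset.card_univ, Fintype.card_fin, nsmul_eq_mul]

/-- The trace of the composition with an idempotent `D`-linear map. -/
theorem trace_idem {M : Type*} [AddCommGroup M] [Module ℚ M] [Module D M] [IsScalarTower ℚ D M]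
    [FiniteDimensional ℚ M] (p : Module.End ℚ M) (hp : p * p = p)
    (hpD : ∀ (d : D) (m : M), p (d • m) = d • p m) :
    ∃ n : ℕ, ∀ d : D, LinearMap.trace ℚ M (Algebra.lsmul ℚ ℚ M d * p) = (n : ℚ) * tau D d := by
  let N : Submodule D M :=
    { carrier := {m | p m = m}
      zero_mem' := map_zero p
      add_mem' := fun {a b} ha hb => by
        change p (a + b) = a + b
        rw [map_add, show p a = a from ha, show p b = b from hb]
      smul_mem' := fun d m hm => by
        change p (d • m) = d • m
        rw [hpD, show p m = m from hm] }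
  haveI : FiniteDimensional ℚ N :=
    FiniteDimensional.of_injective (N.subtype.restrictScalars ℚ) Subtype.val_injective
  let i : N →ₗ[ℚ] M := N.subtype.restrictScalars ℚ
  let q : M →ₗ[ℚ] N :=
    { toFun := fun m => ⟨p m, by
        change p (p m) = p m
        rw [← Module.End.mul_apply, hp]⟩
      map_add' := fun a b => Subtype.ext (map_add p a b)
      map_smul' := fun c a => Subtype.ext (map_smul p c a) }
  refine ⟨finrank D N, fun d => ?_⟩
  have h1 : Algebra.lsmul ℚ ℚ M d * p = (Algebra.lsmul ℚ ℚ M d ∘ₗ i) ∘ₗ q := rfl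
  rw [h1, LinearMap.trace_comp_comm']
  have h2 : q ∘ₗ Algebra.lsmul ℚ ℚ M d ∘ₗ i = Algebra.lsmul ℚ ℚ N d := by
    refine LinearMap.ext fun n => Subtype.ext ?_
    change p (d • (n : M)) = d • (n : M)
    rw [hpD, show p (n : M) = n from n.2]
  rw [h2, trace_module]

end Div

end Run7.h43.ES
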