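import Pool.Agent.Run7.h43.ES.Core

/-!
# The endomorphism algebra of a simple abelian variety with a two-dimensional constituent
-/

set_option autoImplicit false
set_option linter.unusedSectionVars false
set_option linter.style.haveILetI false

open TensorProduct Module

namespace Run7.h43.ES

variable {K : Type*} [Field K] [CharZero K]
variable {D : Type*} [DivisionRing D] [Algebra ℚ D] [FiniteDimensional ℚ D]
variable {M : Type*} [AddCommGroup M] [Module ℚ M] [Module D M] [IsScalarTower ℚ D M]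
  [FiniteDimensional ℚ M]
variable {G : Type*} [Group G]

/-- The properties of the Tate module of a simple abelian variety (Faltings). -/
structure IsTate (D : Type*) [DivisionRing D] [Algebra ℚ D]
    {M : Type*} [AddCommGroup M] [Module ℚ M] [Module D M] [IsScalarTower ℚ D M]
    (ρ : G →* Module.End K (K ⊗[ℚ] M)) : Prop where
  comm : ∀ g (d : D), ρ g * (Algebra.lsmul ℚ ℚ M d).baseChange K =
    (Algebra.lsmul ℚ ℚ M d).baseChange K * ρ g
  commutant : ∀ T : Module.End K (K ⊗[ℚ] M), (∀ g, ρ g * T = T * ρ g) →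
    T ∈ Submodule.span K (Set.range fun d : D => (Algebra.lsmul ℚ ℚ M d).baseChange K)
  semisimple : ∀ U : Submodule K (K ⊗[ℚ] M), (∀ g, ∀ u ∈ U, ρ g u ∈ U) →
    ∃ U' : Submodule K (K ⊗[ℚ] M), (∀ g, ∀ u ∈ U', ρ g u ∈ U') ∧ IsCompl U U'

section

variable {ρ : G →* Module.End K (K ⊗[ℚ] M)}

theorem IsTate.actK_comm (h : IsTate D ρ) (y : K ⊗[ℚ] D) (g : G) :
    ρ g * actK K D M y = actK K D M y * ρ g := by
  induction y using TensorProduct.induction_on with
  | zero => rw [map_zero, mul_zero, zero_mul]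
  | tmul k d => rw [actK_tmul, mul_smul_comm, smul_mul_assoc, h.comm]
  | add a b ha hb => rw [map_add, mul_add, add_mul, ha, hb]

theorem IsTate.exists_actK (h : IsTate D ρ) {T : Module.End K (K ⊗[ℚ] M)}
    (hT : ∀ g, ρ g * T = T * ρ g) : ∃ y, actK K D M y = T := by
  have h1 := h.commutant T hT
  have h2 : Submodule.span K (Set.range fun d : D => (Algebra.lsmul ℚ ℚ M d).baseChange K) ≤
      LinearMap.range (actK K D M).toLinearMap := by
    refine Submodule.span_le.2 ?_
    rintro _ ⟨d, rfl⟩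
    exact ⟨1 ⊗ₜ d, by
      change actK K D M (1 ⊗ₜ d) = _
      rw [actK_tmul, one_smul]⟩
  obtain ⟨y, hy⟩ := h2 h1
  exact ⟨y, hy⟩

end

theorem bc_inj {φ ψ : Module.End ℚ M} (h : φ.baseChange K = ψ.baseChange K) : φ = ψ := by
  refine LinearMap.ext fun m => ?_
  have h1 := LinearMap.congr_fun h (1 ⊗ₜ m)
  rw [LinearMap.baseChange_tmul, LinearMap.baseChange_tmul] at h1
  exact Module.FaithfullyFlat.tensorProduct_mk_injective (A := ℚ) (B := K) M h1

theorem tmul_ne_zero {d : D} (hd : d ≠ 0) : (1 : K) ⊗ₜ[ℚ] d ≠ 0 := fun h => by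
  refine hd (Module.FaithfullyFlat.tensorProduct_mk_injective (A := ℚ) (B := K) D ?_)
  change (1 : K) ⊗ₜ[ℚ] d = (1 : K) ⊗ₜ[ℚ] 0
  rw [h, TensorProduct.tmul_zero]

variable {W : Type*} [AddCommGroup W] [Module K W] [FiniteDimensional K W]

/-- **The core.** A two-dimensional constituent on which the complex conjugation has trace zero. -/
theorem core {ρ : G →* Module.End K (K ⊗[ℚ] M)} (h : IsTate D ρ) {c : G} (hc : c * c = 1)
    {φ : Module.End ℚ M} (hφ : ρ c = φ.baseChange K) {r : G →* Module.End K W}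
    (hW : finrank K W = 2) (htr : LinearMap.trace K W (r c) = 0) {j : W →ₗ[K] K ⊗[ℚ] M}
    (hj : Function.Injective j) (hjr : ∀ g w, j (r g w) = ρ g (j w)) :
    ∃ x : K ⊗[ℚ] D, tB K D x = 1 ∧ (∀ y, ∃ a : K, x * y = a • x) ∧
      (∀ T : Module.End K (K ⊗[ℚ] M), ∀ R : Module.End K W, (∀ w, T (j w) = j (R w)) →
        LinearMap.trace K _ (T * actK K D M x) = LinearMap.trace K W R) ∧
      finrank ℚ M = 2 * finrank ℚ D := by
  classical
  -- the projector
  obtain ⟨U', hU', hcompl⟩ := h.semisimple (LinearMap.range j) (by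
    rintro g _ ⟨w, rfl⟩
    exact ⟨r g w, hjr g w⟩)
  let π : K ⊗[ℚ] M →ₗ[K] W :=
    LinearMap.linearProjOfIsCompl U' j hj hcompl
  have hπ : ∀ w, π (j w) = w := fun w =>
    LinearMap.linearProjOfIsCompl_apply_left U' j hj hcompl w
  have hπ0 : ∀ u ∈ U', π u = 0 := fun u hu =>
    LinearMap.linearProjOfIsCompl_apply_right' U' j hj hcompl u hu
  have hdec : ∀ v : K ⊗[ℚ] M, ∃ w, ∃ u ∈ U', v = j w + u := by
    intro v
    have h1 : v ∈ LinearMap.range j ⊔ U' := by
      rw [hcompl.sup_eq_top]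
      trivial
    obtain ⟨_, ⟨w, rfl⟩, u, hu, h2⟩ := Submodule.mem_sup.1 h1
    exact ⟨w, u, hu, h2.symm⟩
  have hπg : ∀ g v, π (ρ g v) = r g (π v) := by
    intro g v
    obtain ⟨w, u, hu, rfl⟩ := hdec v
    rw [map_add, map_add, map_add, hπ, hπ0 u hu, hπ0 _ (hU' g u hu), ← hjr, hπ, add_zero,
      add_zero]
  let X : Module.End K (K ⊗[ℚ] M) := j ∘ₗ π
  have hX : ∀ g, ρ g * X = X * ρ g := by
    intro g
    refine LinearMap.ext fun v => ?_
    change ρ g (j (π v)) = j (π (ρ g v))
    rw [hπg, hjr]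
  obtain ⟨x, hx⟩ := h.exists_actK hX
  have hxT : ∀ T : Module.End K (K ⊗[ℚ] M), ∀ R : Module.End K W, (∀ w, T (j w) = j (R w)) →
      LinearMap.trace K _ (T * actK K D M x) = LinearMap.trace K W R := by
    intro T R hTR
    rw [hx]
    have h1 : T * X = (T ∘ₗ j) ∘ₗ π := rfl
    rw [h1, LinearMap.trace_comp_comm']
    congr 1
    refine LinearMap.ext fun w => ?_
    change π (T (j w)) = R w
    rw [hTR, hπ]
  -- nontriviality
  have hWn : Nontrivial W := Module.nontrivial_of_finrank_pos (R := K) (by omega)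
  have hM : Nontrivial M := by
    by_contra hM
    rw [not_nontrivial_iff_subsingleton] at hM
    obtain ⟨w, hw⟩ := exists_ne (0 : W)
    refine hw (hj ?_)
    have h1 : Subsingleton (K ⊗[ℚ] M) := by
      refine ⟨fun a b => ?_⟩
      have h2 : ∀ a : K ⊗[ℚ] M, a = 0 := by
        intro a
        induction a using TensorProduct.induction_on with
        | zero => rfl
        | tmul k m => rw [Subsingleton.elim m 0, TensorProduct.tmul_zero]
        | add a b ha hb => rw [ha, hb, add_zero]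
      rw [h2 a, h2 b]
    exact Subsingleton.elim _ _
  have hinj := actK_injective (K := K) (D := D) (M := M)
  have hxx : x * x = x := by
    refine hinj ?_
    rw [map_mul, hx]
    refine LinearMap.ext fun v => ?_
    change j (π (j (π v))) = j (π v)
    rw [hπ]
  -- the complex conjugation
  have hφφ : φ * φ = 1 := by
    refine bc_inj (K := K) ?_
    rw [LinearMap.baseChange_mul, ← hφ, ← map_mul, hc, map_one, LinearMap.baseChange_one]
  have hφD : ∀ (d : D) (m : M), φ (d • m) = d • φ m := by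
    intro d m
    have h1 : φ * Algebra.lsmul ℚ ℚ M d = Algebra.lsmul ℚ ℚ M d * φ := by
      refine bc_inj (K := K) ?_
      rw [LinearMap.baseChange_mul, LinearMap.baseChange_mul, ← hφ]
      exact h.comm c d
    exact LinearMap.congr_fun h1 m
  let p : Module.End ℚ M := (2⁻¹ : ℚ) • (1 + φ)
  have hpp : p * p = p := by
    change ((2⁻¹ : ℚ) • (1 + φ)) * ((2⁻¹ : ℚ) • (1 + φ)) = (2⁻¹ : ℚ) • (1 + φ)
    rw [smul_mul_smul_comm, add_mul, mul_add, mul_add, hφφ, one_mul, mul_one, one_mul]
    rw [show (1 + φ + (φ + 1) : Module.End ℚ M) = (2 : ℚ) • (1 + φ) by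
      rw [two_smul]; abel]
    rw [smul_smul]
    norm_num
  have hpD : ∀ (d : D) (m : M), p (d • m) = d • p m := by
    intro d m
    change (2⁻¹ : ℚ) • (d • m + φ (d • m)) = d • ((2⁻¹ : ℚ) • (m + φ m))
    rw [hφD, ← smul_add, smul_comm]
  obtain ⟨n, hn⟩ := trace_idem p hpp hpD
  have h1 := trace_actK (K := K) hn x
  have hpK : p.baseChange K = (2⁻¹ : K) • (1 + ρ c) := by
    change ((2⁻¹ : ℚ) • (1 + φ)).baseChange K = _
    rw [LinearMap.baseChange_smul, LinearMap.baseChange_add, ← hφ, LinearMap.baseChange_one]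
    refine LinearMap.ext fun v => ?_
    rw [LinearMap.smul_apply, LinearMap.smul_apply, ← algebraMap_smul K (2⁻¹ : ℚ)]
    congr 1
    rw [map_inv₀, map_ofNat]
  have h2 : LinearMap.trace K _ (actK K D M x * p.baseChange K) = 1 := by
    rw [LinearMap.trace_mul_comm, hpK, smul_mul_assoc, map_smul, add_mul, map_add]
    rw [hxT 1 1 (fun w => rfl), hxT (ρ c) (r c) (fun w => (hjr c w).symm), htr, LinearMap.trace_one,
      hW, add_zero]
    norm_num
  rw [h2] at h1
  -- the trace of `x` is a natural number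
  have h3 : ∃ t : ℕ, tB K D x = t ∧ t = finrank K (LinearMap.range (LinearMap.mulLeft K x)) := by
    refine ⟨_, ?_, rfl⟩
    have h4 : IsIdempotentElem (LinearMap.mulLeft K x) := by
      refine LinearMap.ext fun y => ?_
      change x * (x * y) = x * y
      rw [← mul_assoc, hxx]
    exact (LinearMap.IsIdempotentElem.isProj_range _ h4).trace
  obtain ⟨t, ht, ht'⟩ := h3
  have h4 : n * t = 1 := by
    have h5 : ((n * t : ℕ) : K) = ((1 : ℕ) : K) := by
      push_cast
      rw [← ht, ← h1]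
    exact_mod_cast h5
  have ht1 : t = 1 := Nat.eq_one_of_mul_eq_one_left h4
  have hx1 : tB K D x = 1 := by rw [ht, ht1, Nat.cast_one]
  have hx0 : x ≠ 0 := fun h0 => by
    rw [h0, map_zero] at hx1
    exact zero_ne_one hx1
  refine ⟨x, hx1, fun y => ?_, hxT, ?_⟩
  · have h5 : finrank K (LinearMap.range (LinearMap.mulLeft K x)) = 1 := by rw [← ht', ht1]
    have h6 : x ∈ LinearMap.range (LinearMap.mulLeft K x) := ⟨x, hxx⟩
    have h7 : (⟨x, h6⟩ : LinearMap.range (LinearMap.mulLeft K x)) ≠ 0 := fun h0 =>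
      hx0 (congrArg Subtype.val h0)
    obtain ⟨a, ha⟩ := (finrank_eq_one_iff_of_nonzero' _ h7).1 h5
      ⟨x * y, ⟨y, rfl⟩⟩
    exact ⟨a, (congrArg Subtype.val ha).symm⟩
  · haveI : Module.Finite D M := Module.Finite.of_restrictScalars_finite ℚ D M
    have h5 : ∀ d : D, LinearMap.trace ℚ M (Algebra.lsmul ℚ ℚ M d * (1 : Module.End ℚ M)) =
        (finrank D M : ℚ) * tau D d := fun d => by rw [mul_one, trace_module]
    have h6 := trace_actK (K := K) h5 x
    rw [LinearMap.baseChange_one, LinearMap.trace_mul_comm, hxT 1 1 (fun w => rfl),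
      LinearMap.trace_one, hW, hx1, mul_one] at h6
    have h7 : finrank D M = 2 := by exact_mod_cast h6.symm
    rw [← Module.finrank_mul_finrank ℚ D M, h7, mul_comm]

end Run7.h43.ES
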